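import Mathlib

/-!
# Generic submanifolds and the pluricomplex Green function: definitions

`E` is a finite dimensional complex normed space (later `ℂ^n`).
-/

open Set Metric Filter Topology InnerProductSpace
open scoped ContDiff

namespace Pool.Agent.Helper32.Siciak

/-- Subharmonic functions on `ℂ` with values in `[-∞, ∞)` (definition of F. Riesz): upper
semicontinuous, and below every harmonic function `h` in a disc as soon as they are below `h` on the
boundary circle (`h` is continuous on the closed disc and harmonic in the disc). -/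
def IsSubharmonic (v : ℂ → EReal) : Prop :=
  UpperSemicontinuous v ∧ (∀ ζ, v ζ < ⊤) ∧
    ∀ (c : ℂ) (r : ℝ), 0 < r → ∀ h : ℂ → ℝ, HarmonicContOnCl h (ball c r) →
      (∀ ζ ∈ sphere c r, v ζ ≤ h ζ) → ∀ ζ ∈ closedBall c r, v ζ ≤ h ζ

variable {E : Type*} [NormedAddCommGroup E] [NormedSpace ℂ E]

/-- Plurisubharmonic functions on `E`: upper semicontinuous, and subharmonic on every complex
line. -/
def IsPSH (u : E → EReal) : Prop :=
  UpperSemicontinuous u ∧ ∀ a b : E, IsSubharmonic fun ζ => u (a + ζ • b)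

/-- The Lelong class: plurisubharmonic functions with `u z ≤ log (1 + ‖z‖) + C`. -/
def InLelong (u : E → EReal) : Prop :=
  IsPSH u ∧ ∃ C : ℝ, ∀ z, u z ≤ ((Real.log (1 + ‖z‖) + C : ℝ) : EReal)

/-- The pluricomplex Green function (Siciak extremal function) of `K`:
`V(z, K) = sup {u z : u in the Lelong class, u ≤ 0 on K}`. -/
noncomputable def green (K : Set E) (z : E) : EReal :=
  ⨆ u ∈ {u : E → EReal | InLelong u ∧ ∀ w ∈ K, u w ≤ 0}, u z

/-- `K` is `Λ_{1/2}`-pluriregular: its Green function is finite and Hölder continuous of order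
`1/2`. -/
def IsHolderHalf (K : Set E) : Prop :=
  ∃ v : E → ℝ, (∀ z, green K z = (v z : EReal)) ∧
    ∃ C : ℝ, 0 < C ∧ ∀ z w : E, ‖z - w‖ ≤ 1 → |v z - v w| ≤ C * ‖z - w‖ ^ (1 / 2 : ℝ)

/-- The tangent vectors of `M` at `p`: velocities at `p` of curves in `M`. -/
def tangent (M : Set E) (p : E) : Set E :=
  {v | ∃ γ : ℝ → E, γ 0 = p ∧ (∀ᶠ t in 𝓝 0, γ t ∈ M) ∧ HasDerivAt γ v 0}

/-- `M` is a (real, embedded) `C^∞` submanifold of `E`: near each of its points it is the zero set
of a smooth map to some `ℝ^k` whose differential at the point is surjective. -/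
def IsSubmanifold (M : Set E) : Prop :=
  ∀ p ∈ M, ∃ (k : ℕ) (U : Set E) (ρ : E → (Fin k → ℝ)), IsOpen U ∧ p ∈ U ∧
    ContDiffOn ℝ ∞ ρ U ∧ Function.Surjective (fderiv ℝ ρ p) ∧ M ∩ U = {q ∈ U | ρ q = 0}

/-- `M` is generic: `T_p M + i T_p M` is the whole space for every `p` in `M`. -/
def IsGeneric (M : Set E) : Prop :=
  ∀ p ∈ M, ∀ w : E, ∃ v₁ ∈ tangent M p, ∃ v₂ ∈ tangent M p, w = v₁ + Complex.I • v₂

/-- `D` is a bounded domain in `M`: a connected (nonempty), relatively open subset whose closure is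
compact and contained in `M`. -/
structure IsDomainIn (M D : Set E) : Prop where
  subset : D ⊆ M
  connected : IsConnected D
  rel_open : ∃ U : Set E, IsOpen U ∧ D = M ∩ U
  compact : IsCompact (closure D)
  closure_subset : closure D ⊆ M

/-- The boundary of `D` in `M` (`closure D \ D`, as `D` is open in `M`) is smooth: near each of its
points it is the zero set in `M` of a smooth function whose differential is not zero on the tangent
space of `M`. -/
def HasSmoothBoundary (M D : Set E) : Prop :=
  ∀ p ∈ closure D \ D, ∃ (U : Set E) (r : E → ℝ), IsOpen U ∧ p ∈ U ∧ ContDiffOn ℝ ∞ r U ∧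
    (∃ v ∈ tangent M p, fderiv ℝ r p v ≠ 0) ∧ (closure D \ D) ∩ U = {q ∈ M ∩ U | r q = 0}

end Pool.Agent.Helper32.Siciak
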