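import Mathlib
import Pool.Agent.Helper32.Siciak.Defs

open Set Metric Filter Topology InnerProductSpace
open scoped ContDiff

namespace Pool.Agent.Helper32.Siciak

theorem EReal_le_sub {x : EReal} {a b : ℝ} (h : x + (a : EReal) ≤ (b : EReal)) :
    x ≤ ((b - a : ℝ) : EReal) := by
  induction x with
  | bot => exact bot_le
  | top =>
    exfalso
    rw [EReal.top_add_coe] at h
    exact absurd h (not_le.2 (EReal.coe_lt_top b))
  | coe x =>
    rw [← EReal.coe_add, EReal.coe_le_coe_iff] at h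
    rw [EReal.coe_le_coe_iff]
    linarith

theorem EReal_add_le {x : EReal} {a b : ℝ} (h : x ≤ ((b - a : ℝ) : EReal)) :
    x + (a : EReal) ≤ (b : EReal) := by
  induction x with
  | bot => simp
  | top => exact absurd h (not_le.2 (EReal.coe_lt_top _))
  | coe x =>
    rw [EReal.coe_le_coe_iff] at h
    rw [← EReal.coe_add, EReal.coe_le_coe_iff]
    linarith

variable {E : Type*} [NormedAddCommGroup E] [InnerProductSpace ℂ E]

/-- Second order remainder of a holomorphic curve. -/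
theorem remainder_bound {f : ℂ → E} (hf : Differentiable ℂ f) [CompleteSpace E] (c : ℂ) :
    ∃ r₀ C : ℝ, 0 < r₀ ∧ 0 < C ∧ ∀ ζ, ‖ζ - c‖ ≤ r₀ →
      ‖f ζ - f c - (ζ - c) • deriv f c‖ ≤ C * ‖ζ - c‖ ^ 2 := by
  have hd : Differentiable ℂ (deriv f) := (hf.contDiff (n := 2)).differentiable_deriv_two
  obtain ⟨C, hC⟩ := (hd c).hasDerivAt.isBigO_sub.bound
  rw [Metric.eventually_nhds_iff] at hC
  obtain ⟨r₁, hr₁, hC⟩ := hC
  refine ⟨r₁ / 2, max C 1, by positivity, by positivity, fun ζ hζ => ?_⟩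
  have hconv : Convex ℝ (closedBall c ‖ζ - c‖) := convex_closedBall _ _
  have h1 : ∀ x ∈ closedBall c ‖ζ - c‖,
      HasDerivWithinAt (fun x => f x - (x - c) • deriv f c) (deriv f x - deriv f c)
        (closedBall c ‖ζ - c‖) x := by
    intro x _
    have h2 : HasDerivAt (fun x => (x - c) • deriv f c) ((1 : ℂ) • deriv f c) x :=
      ((hasDerivAt_id x).sub_const c).smul_const _
    rw [one_smul] at h2
    exact ((hf x).hasDerivAt.sub h2).hasDerivWithinAt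
  have h3 : ∀ x ∈ closedBall c ‖ζ - c‖, ‖deriv f x - deriv f c‖ ≤ max C 1 * ‖ζ - c‖ := by
    intro x hx
    rw [mem_closedBall, dist_eq_norm] at hx
    have h4 := hC (y := x) (by rw [dist_eq_norm]; linarith)
    calc ‖deriv f x - deriv f c‖ ≤ C * ‖x - c‖ := h4
      _ ≤ max C 1 * ‖x - c‖ := mul_le_mul_of_nonneg_right (le_max_left _ _) (norm_nonneg _)
      _ ≤ max C 1 * ‖ζ - c‖ := mul_le_mul_of_nonneg_left hx (by positivity)
  have h5 := hconv.norm_image_sub_le_of_norm_hasDerivWithin_le h1 h3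
    (mem_closedBall_self (norm_nonneg _)) (show ζ ∈ closedBall c ‖ζ - c‖ by
      rw [mem_closedBall, dist_eq_norm])
  have h6 : f ζ - (ζ - c) • deriv f c - (f c - (c - c) • deriv f c) =
      f ζ - f c - (ζ - c) • deriv f c := by
    rw [sub_self, zero_smul]; abel
  rw [h6] at h5
  calc _ ≤ max C 1 * ‖ζ - c‖ * ‖ζ - c‖ := h5
    _ = _ := by ring

/-- **Comparison on discs.** A plurisubharmonic function restricted to a holomorphic curve satisfies
the maximum principle against harmonic functions on compact sets. -/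
theorem disc_le [FiniteDimensional ℂ E] {u : E → EReal} (hu : IsPSH u) {K : Set ℂ}
    (hK : IsCompact K) {f : ℂ → E} (hf : Differentiable ℂ f) {H : ℂ → ℝ} (hHc : ContinuousOn H K)
    (hH : HarmonicOnNhd H (interior K))
    (hbd : ∀ ζ ∈ K, ζ ∉ interior K → u (f ζ) ≤ H ζ) {ζ₁ : ℂ} (hζ₁ : ζ₁ ∈ K) :
    u (f ζ₁) ≤ H ζ₁ := by
  by_contra hcon
  push Not at hcon
  have : ProperSpace E := FiniteDimensional.proper ℂ E
  have : CompleteSpace E := FiniteDimensional.complete ℂ E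
  have htop : ∀ z, u z < ⊤ := by
    intro z
    have := (hu.2 z 0).2.1 0
    simpa using this
  -- real value at ζ₁
  have hne : u (f ζ₁) ≠ ⊥ := ne_bot_of_gt hcon
  lift u (f ζ₁) to ℝ using ⟨(htop _).ne, hne⟩ with a₁ ha₁
  rw [EReal.coe_lt_coe_iff] at hcon
  set δ : ℝ := a₁ - H ζ₁ with hδ
  have hδ0 : 0 < δ := by rw [hδ]; linarith
  obtain ⟨R₀, hR₀⟩ := hK.isBounded.exists_norm_le
  have hR₀0 : 0 ≤ R₀ := (norm_nonneg _).trans (hR₀ ζ₁ hζ₁)
  set ε : ℝ := δ / (2 * (R₀ ^ 2 + 1)) with hε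
  have hε0 : 0 < ε := by rw [hε]; positivity
  have hεK : ∀ ζ ∈ K, ε * ‖ζ‖ ^ 2 < δ := by
    intro ζ hζ
    have h1 : ‖ζ‖ ^ 2 ≤ R₀ ^ 2 := pow_le_pow_left₀ (norm_nonneg _) (hR₀ ζ hζ) 2
    have h2 : ε * (2 * (R₀ ^ 2 + 1)) = δ := by rw [hε]; field_simp
    nlinarith
  obtain ⟨F₀, hF₀⟩ := (hK.image_of_continuousOn hf.continuous.continuousOn).isBounded.exists_norm_le
  have hF₀' : ∀ ζ ∈ K, ‖f ζ‖ ≤ F₀ := fun ζ hζ => hF₀ _ ⟨ζ, hζ, rfl⟩
  set Q₁ : Set E := closedBall 0 (F₀ + 1) with hQ₁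
  have hQ₁c : IsCompact Q₁ := isCompact_closedBall _ _
  have hfQ : ∀ ζ ∈ K, f ζ ∈ Q₁ := fun ζ hζ => by
    rw [hQ₁, mem_closedBall_zero_iff]; linarith [hF₀' ζ hζ]
  -- upper bound for u
  obtain ⟨zB, _, hzB⟩ := (hu.1.upperSemicontinuousOn Q₁).exists_isMaxOn ⟨f ζ₁, hfQ ζ₁ hζ₁⟩ hQ₁c
  obtain ⟨B₀, hB₀⟩ : ∃ B₀ : ℝ, ∀ z ∈ Q₁, u z ≤ (B₀ : EReal) := by
    obtain ⟨y, hy1, _⟩ := EReal.lt_iff_exists_real_btwn.1 (htop zB)
    exact ⟨y, fun z hz => (hzB hz).trans hy1.le⟩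
  -- the penalised functions
  let g : ℕ → E × ℂ → ℝ := fun M q => ε * ‖q.2‖ ^ 2 - H q.2 - M * ‖q.1 - f q.2‖ ^ 2
  set Q : Set (E × ℂ) := Q₁ ×ˢ K with hQ
  have hQc : IsCompact Q := hQ₁c.prod hK
  have hgc : ∀ M, ContinuousOn (g M) Q := by
    intro M
    have h1 : ContinuousOn (fun q : E × ℂ => H q.2) Q :=
      hHc.comp continuousOn_snd fun q hq => hq.2
    have h2 : Continuous (fun q : E × ℂ => ε * ‖q.2‖ ^ 2) := by fun_prop
    have h3 : Continuous (fun q : E × ℂ => (M : ℝ) * ‖q.1 - f q.2‖ ^ 2) := by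
      have := hf.continuous
      fun_prop
    exact (h2.continuousOn.sub h1).sub h3.continuousOn
  have husc : ∀ M, UpperSemicontinuousOn (fun q : E × ℂ => u q.1 + ((g M q : ℝ) : EReal)) Q := by
    intro M
    have h1 : UpperSemicontinuousOn (fun q : E × ℂ => u q.1) Q := by
      intro q _ y hy
      exact (continuous_fst.tendsto q).eventually (hu.1 q.1 y hy) |>.filter_mono
        nhdsWithin_le_nhds
    have h2 : UpperSemicontinuousOn (fun q : E × ℂ => ((g M q : ℝ) : EReal)) Q :=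
      (continuous_coe_real_ereal.comp_continuousOn (hgc M)).upperSemicontinuousOn
    refine h1.add' h2 fun q _ => EReal.continuousAt_add (Or.inr (EReal.coe_ne_bot _))
      (Or.inr (EReal.coe_ne_top _))
  have hmax : ∀ M : ℕ, ∃ q ∈ Q, ∀ q' ∈ Q, u q'.1 + ((g M q' : ℝ) : EReal) ≤
      u q.1 + ((g M q : ℝ) : EReal) := by
    intro M
    have hQne : Q.Nonempty := ⟨(f ζ₁, ζ₁), hfQ ζ₁ hζ₁, hζ₁⟩
    obtain ⟨q, hq, hqm⟩ := (husc M).exists_isMaxOn hQne hQc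
    exact ⟨q, hq, fun q' hq' => hqm hq'⟩
  choose qs hqs hqsm using hmax
  have hlow : ∀ M : ℕ, ((δ : ℝ) : EReal) ≤ u (qs M).1 + ((g M (qs M) : ℝ) : EReal) := by
    intro M
    refine le_trans ?_ (hqsm M (f ζ₁, ζ₁) ⟨hfQ ζ₁ hζ₁, hζ₁⟩)
    simp only [g, sub_self, norm_zero, ← ha₁]
    rw [← EReal.coe_add, EReal.coe_le_coe_iff]
    have : 0 ≤ ε * ‖ζ₁‖ ^ 2 := by positivity
    simp only [ne_eq, OfNat.ofNat_ne_zero, not_false_eq_true, zero_pow, mul_zero, sub_zero]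
    rw [hδ]; linarith
  -- limit along an ultrafilter
  obtain ⟨HB, hHB⟩ : ∃ HB : ℝ, ∀ ζ ∈ K, -H ζ ≤ HB := by
    obtain ⟨C, hC⟩ := (hK.image_of_continuousOn hHc).isBounded.exists_norm_le
    refine ⟨C, fun ζ hζ => ?_⟩
    have := hC _ ⟨ζ, hζ, rfl⟩
    exact (neg_le_abs _).trans this
  have hpen : ∀ M : ℕ, (M : ℝ) * ‖(qs M).1 - f (qs M).2‖ ^ 2 ≤ B₀ + HB := by
    intro M
    have h1 := hlow M
    have h2 := hB₀ _ (hqs M).1
    have h3 : ((δ : ℝ) : EReal) ≤ (B₀ : EReal) + ((g M (qs M) : ℝ) : EReal) :=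
      h1.trans (add_le_add_left h2 _)
    rw [← EReal.coe_add, EReal.coe_le_coe_iff] at h3
    have h4 := hεK _ (hqs M).2
    have h5 := hHB _ (hqs M).2
    simp only [g] at h3
    linarith
  let 𝒰 : Ultrafilter ℕ := Ultrafilter.of atTop
  have h𝒰 : (𝒰 : Filter ℕ) ≤ atTop := Ultrafilter.of_le atTop
  obtain ⟨q₀, hq₀, hq₀lim⟩ : ∃ q₀ ∈ Q, Tendsto qs 𝒰 (𝓝 q₀) := by
    have h1 : ((𝒰.map qs : Ultrafilter _) : Filter _) ≤ 𝓟 Q :=
      le_principal_iff.2 (Filter.mem_map.2 (Filter.univ_mem' hqs))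
    obtain ⟨q₀, hq₀, h2⟩ := hQc.ultrafilter_le_nhds _ h1
    exact ⟨q₀, hq₀, h2⟩
  have hdist : Tendsto (fun M => ‖(qs M).1 - f (qs M).2‖) 𝒰 (𝓝 0) := by
    have h1 : ∀ᶠ M : ℕ in atTop, ‖(qs M).1 - f (qs M).2‖ ^ 2 ≤ (B₀ + HB) / M := by
      filter_upwards [eventually_gt_atTop 0] with M hM
      rw [le_div_iff₀ (by exact_mod_cast hM), mul_comm]
      exact hpen M
    have h2 : Tendsto (fun M : ℕ => (B₀ + HB) / (M : ℝ)) atTop (𝓝 0) :=
      tendsto_const_div_atTop_nhds_zero_nat _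
    have h3 : Tendsto (fun M => ‖(qs M).1 - f (qs M).2‖ ^ 2) atTop (𝓝 0) :=
      squeeze_zero' (Eventually.of_forall fun M => by positivity) h1 h2
    have h4 := (h3.sqrt).mono_left h𝒰
    simpa [Real.sqrt_sq] using h4
  have hq₀f : q₀.1 = f q₀.2 := by
    have h1 : Tendsto (fun M => ‖(qs M).1 - f (qs M).2‖) 𝒰 (𝓝 ‖q₀.1 - f q₀.2‖) := by
      have hc : Continuous fun q : E × ℂ => ‖q.1 - f q.2‖ := by
        have := hf.continuous
        fun_prop
      exact (hc.tendsto q₀).comp hq₀lim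
    have h2 := tendsto_nhds_unique h1 hdist
    exact sub_eq_zero.1 (norm_eq_zero.1 h2)
  have hint : q₀.2 ∈ interior K := by
    by_contra hnot
    have h1 := hbd _ hq₀.2 hnot
    have h2 := hεK _ hq₀.2
    -- real level
    set y : ℝ := H q₀.2 + (δ - ε * ‖q₀.2‖ ^ 2) / 2 with hy
    have h3 : u q₀.1 < (y : EReal) := by
      rw [hq₀f]
      refine h1.trans_lt ?_
      rw [EReal.coe_lt_coe_iff, hy]; linarith
    have h4 : ∀ᶠ M in (𝒰 : Filter ℕ), u (qs M).1 < (y : EReal) :=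
      ((continuous_fst.tendsto q₀).comp hq₀lim).eventually (hu.1 q₀.1 _ h3)
    have h5 : Tendsto (fun M => ε * ‖(qs M).2‖ ^ 2 - H (qs M).2) 𝒰
        (𝓝 (ε * ‖q₀.2‖ ^ 2 - H q₀.2)) := by
      have hcont : ContinuousOn (fun q : E × ℂ => ε * ‖q.2‖ ^ 2 - H q.2) Q := by
        have h1 : ContinuousOn (fun q : E × ℂ => H q.2) Q :=
          hHc.comp continuousOn_snd fun q hq => hq.2
        have h2 : Continuous (fun q : E × ℂ => ε * ‖q.2‖ ^ 2) := by fun_prop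
        exact h2.continuousOn.sub h1
      have := (hcont q₀ hq₀).tendsto
      refine this.comp ?_
      rw [tendsto_nhdsWithin_iff]
      exact ⟨hq₀lim, Eventually.of_forall hqs⟩
    have h6 : ∀ᶠ M in (𝒰 : Filter ℕ), ε * ‖(qs M).2‖ ^ 2 - H (qs M).2 <
        ε * ‖q₀.2‖ ^ 2 - H q₀.2 + (δ - ε * ‖q₀.2‖ ^ 2) / 2 :=
      h5.eventually (gt_mem_nhds (by linarith))
    obtain ⟨M, hM4, hM6⟩ := (h4.and h6).exists
    have h7 := hlow M
    have h8 : ((δ : ℝ) : EReal) ≤ (y : EReal) + ((g M (qs M) : ℝ) : EReal) :=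
      h7.trans (add_le_add_left hM4.le _)
    rw [← EReal.coe_add, EReal.coe_le_coe_iff] at h8
    simp only [g] at h8
    have h9 : 0 ≤ (M : ℝ) * ‖(qs M).1 - f (qs M).2‖ ^ 2 := by positivity
    linarith
  -- choose a good index
  have hev1 : ∀ᶠ M in (𝒰 : Filter ℕ), (qs M).2 ∈ interior K :=
    ((continuous_snd.tendsto q₀).comp hq₀lim).eventually (isOpen_interior.mem_nhds hint)
  have hev2 : ∀ᶠ M in (𝒰 : Filter ℕ), ‖(qs M).1 - f (qs M).2‖ < 1 / 2 :=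
    hdist.eventually (gt_mem_nhds (by norm_num))
  obtain ⟨M, hM1, hM2⟩ := (hev1.and hev2).exists
  set zM : E := (qs M).1 with hzM
  set ζM : ℂ := (qs M).2 with hζM
  have hζMK : ζM ∈ K := interior_subset hM1
  have hmaxM := hqsm M
  have hlowM := hlow M
  -- real value at zM
  have hne' : u zM ≠ ⊥ := by
    intro h0
    rw [← hzM, h0, EReal.bot_add] at hlowM
    exact absurd hlowM (not_le.2 (EReal.bot_lt_coe δ))
  obtain ⟨x, hx⟩ : ∃ x : ℝ, u zM = (x : EReal) := by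
    lift u zM to ℝ using ⟨(htop _).ne, hne'⟩ with x hx
    exact ⟨x, rfl⟩
  set b : E := deriv f ζM with hb
  set G0 : E := zM - f ζM with hG0
  obtain ⟨r₀, C, hr₀, hC, hrem⟩ := remainder_bound hf ζM
  obtain ⟨r₁, hr₁, hr₁K⟩ := Metric.isOpen_iff.1 isOpen_interior ζM hM1
  -- the radius
  obtain ⟨r, hr, hrr₀, hrr₁, hrb, hrC⟩ : ∃ r : ℝ, 0 < r ∧ r ≤ r₀ ∧ r < r₁ ∧ r * ‖b‖ ≤ 1 / 2 ∧
      (M : ℝ) * C ^ 2 * r ^ 2 < ε := by
    refine ⟨min (min r₀ (r₁ / 2)) (min (1 / (2 * (‖b‖ + 1))) (√ε / (2 * (C * (M + 1))))), ?_⟩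
    set r := min (min r₀ (r₁ / 2)) (min (1 / (2 * (‖b‖ + 1))) (√ε / (2 * (C * (M + 1))))) with hrdef
    have hsε : 0 < √ε := Real.sqrt_pos.2 hε0
    have hr : 0 < r := by
      rw [hrdef]
      refine lt_min (lt_min hr₀ (by positivity)) (lt_min (by positivity) (by positivity))
    refine ⟨hr, (min_le_left _ _).trans (min_le_left _ _),
      lt_of_le_of_lt ((min_le_left _ _).trans (min_le_right _ _)) (by linarith), ?_, ?_⟩
    · have h1 : r ≤ 1 / (2 * (‖b‖ + 1)) := (min_le_right _ _).trans (min_le_left _ _)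
      rw [le_div_iff₀ (by positivity)] at h1
      nlinarith [norm_nonneg b]
    · have h1 : r ≤ √ε / (2 * (C * (M + 1))) := (min_le_right _ _).trans (min_le_right _ _)
      rw [le_div_iff₀ (by positivity)] at h1
      have h2 : (r * (2 * (C * (M + 1)))) ^ 2 ≤ (√ε) ^ 2 := pow_le_pow_left₀ (by positivity) h1 2
      rw [Real.sq_sqrt hε0.le] at h2
      have h3 : (M : ℝ) ≤ ((M : ℝ) + 1) ^ 2 := by nlinarith [sq_nonneg (M : ℝ), Nat.cast_nonneg (α := ℝ) M]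
      have h4 : 0 < C ^ 2 * r ^ 2 := by positivity
      nlinarith [mul_le_mul_of_nonneg_left h3 h4.le]
  -- subharmonicity on the line
  have hsub := (hu.2 (zM - ζM • b) b).2.2 ζM r hr
  set h : ℂ → ℝ := fun ζ => x + g M (zM, ζM) + H ζ -
      ε * (2 * (starRingEnd ℂ ζM * ζ).re - ‖ζM‖ ^ 2 + r ^ 2) +
      M * (‖G0‖ ^ 2 - 2 * (⟪G0, f ζ - f ζM - (ζ - ζM) • b⟫_ℂ).re + C ^ 2 * r ^ 4) with hh
  have hharm : HarmonicContOnCl h (ball ζM r) := by
    apply HarmonicOnNhd.harmonicContOnCl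
    intro ζ hζ
    have hζ' : ζ ∈ interior K := by
      rw [closure_ball _ hr.ne'] at hζ
      exact hr₁K (closedBall_subset_ball hrr₁ hζ)
    have h1 : HarmonicAt H ζ := hH ζ hζ'
    have h2 : HarmonicAt (fun ζ => ((ε * 2 : ℂ) * (starRingEnd ℂ ζM * ζ)).re) ζ := by
      apply AnalyticAt.harmonicAt_re
      fun_prop
    have h3 : HarmonicAt (fun ζ => (((M * 2 : ℂ)) * ⟪G0, f ζ - f ζM - (ζ - ζM) • b⟫_ℂ).re) ζ := by
      apply AnalyticAt.harmonicAt_re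
      have hd : Differentiable ℂ (fun ζ => f ζ - f ζM - (ζ - ζM) • b) := by
        have h4 : Differentiable ℂ (fun ζ : ℂ => (ζ - ζM) • b) := by fun_prop
        exact (hf.sub_const _).sub h4
      have hd2 : Differentiable ℂ (fun ζ => (M * 2 : ℂ) * ⟪G0, f ζ - f ζM - (ζ - ζM) • b⟫_ℂ) :=
        (((innerSL ℂ G0).differentiable.comp hd).const_mul _)
      exact hd2.analyticAt ζ
    have h4 : HarmonicAt (fun _ : ℂ => x + g M (zM, ζM) - ε * (-‖ζM‖ ^ 2 + r ^ 2) +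
        M * (‖G0‖ ^ 2 + C ^ 2 * r ^ 4)) ζ := harmonicAt_const _
    have h5 := (((h4.add h1).sub h2).sub h3)
    refine (harmonicAt_congr_nhds (Filter.Eventually.of_forall fun w => ?_)).1 h5
    simp only [hh, Pi.add_apply, Pi.sub_apply]
    have e1 : ((ε * 2 : ℂ) * (starRingEnd ℂ ζM * w)).re = ε * 2 * (starRingEnd ℂ ζM * w).re := by
      rw [show (ε * 2 : ℂ) = ((ε * 2 : ℝ) : ℂ) by push_cast; ring, Complex.re_ofReal_mul]
    have e2 : (((M * 2 : ℂ)) * ⟪G0, f w - f ζM - (w - ζM) • b⟫_ℂ).re =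
        M * 2 * (⟪G0, f w - f ζM - (w - ζM) • b⟫_ℂ).re := by
      rw [show ((M : ℂ) * 2) = (((M : ℝ) * 2 : ℝ) : ℂ) by push_cast; ring, Complex.re_ofReal_mul]
    rw [e1, e2]
    ring
  have hcirc : ∀ ζ ∈ sphere ζM r, u (zM - ζM • b + ζ • b) ≤ ((h ζ : ℝ) : EReal) := by
    intro ζ hζ
    have hζn : ‖ζ - ζM‖ = r := by rwa [mem_sphere, dist_eq_norm] at hζ
    have e0 : zM - ζM • b + ζ • b = zM + (ζ - ζM) • b := by rw [sub_smul]; abel
    rw [e0]
    have hmem : (zM + (ζ - ζM) • b, ζ) ∈ Q := by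
      constructor
      · change zM + (ζ - ζM) • b ∈ Q₁
        rw [hQ₁, mem_closedBall_zero_iff]
        have h1 : ‖zM‖ ≤ F₀ + 1 / 2 := by
          have : zM = f ζM + G0 := by rw [hG0]; abel
          rw [this]
          refine (norm_add_le _ _).trans ?_
          have := hF₀' _ hζMK
          have h2 : ‖G0‖ < 1 / 2 := hM2
          linarith
        have h2 : ‖(ζ - ζM) • b‖ ≤ 1 / 2 := by rw [norm_smul, hζn]; exact hrb
        exact (norm_add_le _ _).trans (by linarith)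
      · change ζ ∈ K
        apply interior_subset
        apply hr₁K
        rw [mem_ball, dist_eq_norm, hζn]
        exact hrr₁
    have h1 := hmaxM _ hmem
    change u (zM + (ζ - ζM) • b) + ((g M (zM + (ζ - ζM) • b, ζ) : ℝ) : EReal) ≤
      u zM + ((g M (qs M) : ℝ) : EReal) at h1
    rw [hx, ← EReal.coe_add] at h1
    refine (EReal_le_sub h1).trans ?_
    rw [EReal.coe_le_coe_iff]
    have hgM : g M (qs M) = g M (zM, ζM) := rfl
    rw [hgM]
    have hexp : g M (zM + (ζ - ζM) • b, ζ) = ε * ‖ζ‖ ^ 2 - H ζ -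
        M * ‖zM + (ζ - ζM) • b - f ζ‖ ^ 2 := rfl
    rw [hexp]
    have e1 : ‖ζ‖ ^ 2 = 2 * (starRingEnd ℂ ζM * ζ).re - ‖ζM‖ ^ 2 + r ^ 2 := by
      rw [← hζn, ← Complex.normSq_eq_norm_sq, ← Complex.normSq_eq_norm_sq,
        ← Complex.normSq_eq_norm_sq, Complex.normSq_apply, Complex.normSq_apply,
        Complex.normSq_apply]
      simp only [Complex.mul_re, Complex.conj_re, Complex.conj_im, Complex.sub_re, Complex.sub_im]
      ring
    have e2 : zM + (ζ - ζM) • b - f ζ = G0 - (f ζ - f ζM - (ζ - ζM) • b) := by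
      rw [hG0]; abel
    have e3 : ‖zM + (ζ - ζM) • b - f ζ‖ ^ 2 ≤
        ‖G0‖ ^ 2 - 2 * (⟪G0, f ζ - f ζM - (ζ - ζM) • b⟫_ℂ).re + C ^ 2 * r ^ 4 := by
      rw [e2, norm_sub_sq (𝕜 := ℂ)]
      have h2 := hrem ζ (by rw [hζn]; exact hrr₀)
      rw [hζn] at h2
      have h3 : ‖f ζ - f ζM - (ζ - ζM) • b‖ ^ 2 ≤ (C * r ^ 2) ^ 2 :=
        pow_le_pow_left₀ (norm_nonneg _) h2 2
      have h4 : (C * r ^ 2) ^ 2 = C ^ 2 * r ^ 4 := by ring
      rw [h4] at h3
      simp only [RCLike.re_to_complex]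
      linarith
    have e4 : (M : ℝ) * ‖zM + (ζ - ζM) • b - f ζ‖ ^ 2 ≤
        M * (‖G0‖ ^ 2 - 2 * (⟪G0, f ζ - f ζM - (ζ - ζM) • b⟫_ℂ).re + C ^ 2 * r ^ 4) :=
      mul_le_mul_of_nonneg_left e3 (Nat.cast_nonneg _)
    simp only [hh]
    rw [e1]
    linarith
  have hfin := hsub h hharm hcirc ζM (mem_closedBall_self hr.le)
  have e5 : zM - ζM • b + ζM • b = zM := by abel
  simp only at hfin
  rw [e5, hx, EReal.coe_le_coe_iff] at hfin
  simp only [hh, sub_self, zero_smul, inner_zero_right, Complex.zero_re, mul_zero, sub_zero] at hfin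
  have e6 : (starRingEnd ℂ ζM * ζM).re = ‖ζM‖ ^ 2 := by
    rw [← Complex.normSq_eq_norm_sq, Complex.normSq_apply]
    simp only [Complex.mul_re, Complex.conj_re, Complex.conj_im]
    ring
  rw [e6] at hfin
  have e7 : g M (zM, ζM) = ε * ‖ζM‖ ^ 2 - H ζM - M * ‖G0‖ ^ 2 := rfl
  rw [e7] at hfin
  have e8 : (M : ℝ) * (C ^ 2 * r ^ 4) < ε * r ^ 2 := by
    have : (M : ℝ) * (C ^ 2 * r ^ 4) = ((M : ℝ) * C ^ 2 * r ^ 2) * r ^ 2 := by ring
    rw [this]
    exact mul_lt_mul_of_pos_right hrC (by positivity)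
  nlinarith

end Pool.Agent.Helper32.Siciak
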