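import Mathlib
import Pool.Agent.Helper32.Siciak.Disc

open Set Metric Filter Topology InnerProductSpace
open scoped ContDiff

namespace Pool.Agent.Helper32.Siciak

variable {E : Type*} [NormedAddCommGroup E] [InnerProductSpace ℂ E] [FiniteDimensional ℂ E]

theorem walsh_aux {u : E → EReal} (hu : InLelong u) {p : E} {r m : ℝ} (hr : 0 < r)
    (hm : ∀ z ∈ closedBall p r, u z ≤ (m : EReal)) {z : E} (hz : r < ‖z - p‖) {ε : ℝ}
    (hε : 0 < ε) : u z ≤ ((m + (1 + ε) * (Real.log ‖z - p‖ - Real.log r) : ℝ) : EReal) := by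
  obtain ⟨hpsh, C, hC⟩ := hu
  set ρ₀ : ℝ := ‖z - p‖ with hρ₀
  have hρ₀0 : 0 < ρ₀ := hr.trans hz
  obtain ⟨R₁, hR₁1, hR₁2, hR₁3⟩ : ∃ R₁ : ℝ, 1 + ‖p‖ ≤ R₁ ∧ ρ₀ ≤ R₁ ∧
      Real.log 2 + C - m + (1 + ε) * Real.log r ≤ ε * Real.log R₁ := by
    have h1 : Tendsto (fun R : ℝ => ε * Real.log R) atTop atTop :=
      Real.tendsto_log_atTop.const_mul_atTop hε
    have h2 := h1.eventually_ge_atTop (Real.log 2 + C - m + (1 + ε) * Real.log r)
    obtain ⟨R, h3, h4, h5⟩ := (((eventually_ge_atTop (1 + ‖p‖)).and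
      ((eventually_ge_atTop ρ₀).and h2))).exists
    exact ⟨R, h3, h4, h5⟩
  have hR₁0 : 0 < R₁ := by linarith
  set b : E := ((1 / ρ₀ : ℝ) : ℂ) • (z - p) with hb
  have hbn : ‖b‖ = 1 := by
    rw [hb, norm_smul, Complex.norm_real, Real.norm_eq_abs, abs_of_pos (by positivity), ← hρ₀]
    field_simp
  set f : ℂ → E := fun ζ => p + ζ • b with hf
  have hfd : Differentiable ℂ f := by
    have : Differentiable ℂ (fun ζ : ℂ => ζ • b) := by fun_prop
    exact this.const_add p
  set K : Set ℂ := {ζ | r ≤ ‖ζ‖ ∧ ‖ζ‖ ≤ R₁} with hK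
  have hKc : IsCompact K := by
    apply Metric.isCompact_of_isClosed_isBounded
    · exact (isClosed_le continuous_const continuous_norm).inter
        (isClosed_le continuous_norm continuous_const)
    · apply isBounded_iff_forall_norm_le.2 ⟨R₁, fun ζ hζ => hζ.2⟩
  have hint : {ζ : ℂ | r < ‖ζ‖ ∧ ‖ζ‖ < R₁} ⊆ interior K := by
    apply interior_maximal
    · intro ζ hζ
      exact ⟨hζ.1.le, hζ.2.le⟩
    · exact (isOpen_lt continuous_const continuous_norm).inter
        (isOpen_lt continuous_norm continuous_const)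
  set H : ℂ → ℝ := fun ζ => m + (1 + ε) * (Real.log ‖ζ‖ - Real.log r) with hH
  have hpos : ∀ ζ ∈ K, ζ ≠ 0 := by
    intro ζ hζ h0
    rw [h0, hK] at hζ
    have := hζ.1
    rw [norm_zero] at this
    linarith
  have hHh : HarmonicOnNhd H K := by
    intro ζ hζ
    have h1 : HarmonicAt (fun w : ℂ => Real.log ‖(id w : ℂ)‖) ζ :=
      AnalyticAt.harmonicAt_log_norm analyticAt_id (hpos ζ hζ)
    have h2 := (harmonicAt_const (x := ζ) (m - (1 + ε) * Real.log r)).add
      (HarmonicAt.const_smul (c := (1 + ε)) h1)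
    refine (harmonicAt_congr_nhds (Filter.Eventually.of_forall fun w => ?_)).1 h2
    simp only [hH, Pi.add_apply, Pi.smul_apply, smul_eq_mul, id]
    ring
  have hres := disc_le hpsh hKc hfd (H := H) hHh.continuousOn (hHh.mono interior_subset) ?_
    (ζ₁ := ((ρ₀ : ℝ) : ℂ)) ?_
  · have e1 : f ((ρ₀ : ℝ) : ℂ) = z := by
      simp only [hf, hb]
      rw [smul_smul, ← Complex.ofReal_mul, mul_one_div_cancel hρ₀0.ne', Complex.ofReal_one, one_smul]
      abel
    rw [e1] at hres
    simp only [hH, Complex.norm_real, Real.norm_eq_abs, abs_of_pos hρ₀0] at hres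
    exact hres
  · intro ζ hζ hni
    have h1 : ‖ζ‖ = r ∨ ‖ζ‖ = R₁ := by
      by_contra hne
      push Not at hne
      apply hni
      apply hint
      exact ⟨lt_of_le_of_ne hζ.1 (Ne.symm hne.1), lt_of_le_of_ne hζ.2 hne.2⟩
    rcases h1 with h1 | h1
    · have h2 : H ζ = m := by simp only [hH]; rw [h1]; ring
      rw [h2]
      apply hm
      rw [mem_closedBall, dist_eq_norm, hf]
      simp only [add_sub_cancel_left]
      rw [norm_smul, hbn, mul_one, h1]
    · refine (hC _).trans ?_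
      rw [EReal.coe_le_coe_iff]
      have h2 : ‖f ζ‖ ≤ ‖p‖ + R₁ := by
        rw [hf]
        refine (norm_add_le _ _).trans ?_
        rw [norm_smul, hbn, mul_one, h1]
      have h3 : Real.log (1 + ‖f ζ‖) ≤ Real.log 2 + Real.log R₁ := by
        rw [← Real.log_mul (by norm_num) hR₁0.ne']
        apply Real.log_le_log (by positivity)
        linarith
      simp only [hH]
      rw [h1]
      linarith
  · rw [hK]
    simp only [mem_setOf_eq, Complex.norm_real, Real.norm_eq_abs, abs_of_pos hρ₀0]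
    exact ⟨hz.le, hR₁2⟩

/-- Bernstein-Walsh inequality for balls. -/
theorem walsh {u : E → EReal} (hu : InLelong u) {p : E} {r m : ℝ} (hr : 0 < r)
    (hm : ∀ z ∈ closedBall p r, u z ≤ (m : EReal)) {R : ℝ} (hR : r ≤ R) {z : E}
    (hz : ‖z - p‖ ≤ R) : u z ≤ ((m + Real.log (R / r) : ℝ) : EReal) := by
  have hR0 : 0 < R := hr.trans_le hR
  have hlog : 0 ≤ Real.log (R / r) := Real.log_nonneg (by rwa [le_div_iff₀ hr, one_mul])
  rcases le_or_gt ‖z - p‖ r with h | h
  · refine (hm z (by rwa [mem_closedBall, dist_eq_norm])).trans ?_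
    rw [EReal.coe_le_coe_iff]; linarith
  · have h1 : ∀ ε : ℝ, 0 < ε → u z ≤ ((m + Real.log (R / r) + ε : ℝ) : EReal) := by
      intro ε hε
      have h2 := walsh_aux hu hr hm h (ε := ε / (Real.log (R / r) + 1)) (by positivity)
      refine h2.trans ?_
      rw [EReal.coe_le_coe_iff]
      have h3 : Real.log ‖z - p‖ - Real.log r ≤ Real.log (R / r) := by
        rw [Real.log_div hR0.ne' hr.ne']
        have := Real.log_le_log (hr.trans h) hz
        linarith
      have h4 : 0 ≤ Real.log ‖z - p‖ - Real.log r := by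
        have := Real.log_le_log hr h.le
        linarith
      have h5 : ε / (Real.log (R / r) + 1) * (Real.log ‖z - p‖ - Real.log r) ≤ ε := by
        rw [div_mul_eq_mul_div, div_le_iff₀ (by positivity)]
        nlinarith
      nlinarith
    apply EReal.le_of_forall_lt_iff_le.1
    intro y hy
    rw [EReal.coe_lt_coe_iff] at hy
    have := h1 (y - (m + Real.log (R / r))) (by linarith)
    rwa [add_sub_cancel] at this

end Pool.Agent.Helper32.Siciak
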