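import Mathlib
import Pool.Agent.Helper32.Siciak.Walsh

open Set Metric Filter Topology InnerProductSpace
open scoped ContDiff

namespace Pool.Agent.Helper32.Siciak

variable {E : Type*} [NormedAddCommGroup E] [InnerProductSpace ℂ E] [FiniteDimensional ℂ E]

/-- The half disc estimate. -/
theorem half_disc {u : E → EReal} (hu : IsPSH u) {f : ℂ → E} (hf : Differentiable ℂ f)
    {τ m L M h : ℝ} (hL : 0 ≤ L) (hM : ∀ ζ : ℂ, ‖ζ‖ ≤ τ → u (f ζ) ≤ (M : EReal))
    (hML : M ≤ m + L * τ ^ 2) (hreal : ∀ t : ℝ, |t| ≤ τ → u (f t) ≤ ((m + L * t ^ 2 : ℝ) : EReal))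
    (hh : 0 < h) (hhτ : h ≤ τ) : u (f (h * Complex.I)) ≤ ((m + 2 * L * τ * h : ℝ) : EReal) := by
  set K : Set ℂ := {ζ | ‖ζ‖ ≤ τ ∧ 0 ≤ ζ.im} with hK
  have hKc : IsCompact K := by
    apply Metric.isCompact_of_isClosed_isBounded
    · exact (isClosed_le continuous_norm continuous_const).inter
        (isClosed_le continuous_const Complex.continuous_im)
    · apply isBounded_iff_forall_norm_le.2 ⟨τ, fun ζ hζ => hζ.1⟩
  have hint : {ζ : ℂ | ‖ζ‖ < τ ∧ 0 < ζ.im} ⊆ interior K := by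
    apply interior_maximal
    · intro ζ hζ
      exact ⟨hζ.1.le, hζ.2.le⟩
    · exact (isOpen_lt continuous_norm continuous_const).inter
        (isOpen_lt continuous_const Complex.continuous_im)
  set H : ℂ → ℝ := fun ζ => (((m : ℂ) + L * (ζ ^ 2 - 2 * τ * Complex.I * ζ))).re with hH
  have hHval : ∀ ζ : ℂ, H ζ = m + L * (ζ.re ^ 2 - ζ.im ^ 2 + 2 * τ * ζ.im) := by
    intro ζ
    simp only [hH]
    simp [sq]
  have hHh : HarmonicOnNhd H K := by
    intro ζ _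
    apply AnalyticAt.harmonicAt_re
    fun_prop
  have hres := disc_le hu hKc hf (H := H) hHh.continuousOn (hHh.mono interior_subset) ?_
    (ζ₁ := (h * Complex.I)) ?_
  · refine hres.trans ?_
    rw [EReal.coe_le_coe_iff, hHval]
    have e1 : ((h : ℂ) * Complex.I).re = 0 := by simp
    have e2 : ((h : ℂ) * Complex.I).im = h := by simp
    rw [e1, e2]
    have : 0 ≤ L * h ^ 2 := by positivity
    nlinarith
  · intro ζ hζ hni
    have h1 : ‖ζ‖ = τ ∨ ζ.im = 0 := by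
      by_contra hne
      push Not at hne
      apply hni
      apply hint
      exact ⟨lt_of_le_of_ne hζ.1 hne.1, lt_of_le_of_ne hζ.2 (Ne.symm hne.2)⟩
    rcases h1 with h1 | h1
    · refine (hM ζ hζ.1).trans ?_
      rw [EReal.coe_le_coe_iff, hHval]
      refine hML.trans ?_
      have h2 : ζ.re ^ 2 + ζ.im ^ 2 = τ ^ 2 := by
        rw [← h1, ← Complex.normSq_eq_norm_sq, Complex.normSq_apply]; ring
      have h3 : ζ.im ≤ τ := by
        rw [← h1]; exact (le_abs_self _).trans (Complex.abs_im_le_norm ζ)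
      have h4 : τ ^ 2 ≤ ζ.re ^ 2 - ζ.im ^ 2 + 2 * τ * ζ.im := by
        have := hζ.2
        nlinarith
      have := mul_le_mul_of_nonneg_left h4 hL
      linarith
    · have h2 : ζ = ((ζ.re : ℝ) : ℂ) := by
        apply Complex.ext
        · simp
        · simpa using h1
      have h3 : |ζ.re| ≤ τ := (Complex.abs_re_le_norm ζ).trans hζ.1
      have h4 := hreal ζ.re h3
      rw [← h2] at h4
      refine h4.trans ?_
      rw [EReal.coe_le_coe_iff, hHval, h1]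
      apply le_of_eq; ring
  · rw [hK]
    simp only [mem_ofPred_eq]
    constructor
    · rw [norm_mul, Complex.norm_I, mul_one, Complex.norm_real, Real.norm_eq_abs, abs_of_pos hh]
      exact hhτ
    · simp [hh.le]

/-- Bound of `u` near `K`. -/
def PB (u : E → EReal) (K : Set E) (ε m : ℝ) : Prop := ∀ z, infDist z K ≤ ε → u z ≤ (m : EReal)

theorem PB.mono {u : E → EReal} {K : Set E} {ε m m' : ℝ} (h : PB u K ε m) (hm : m ≤ m') :
    PB u K ε m' := fun z hz => (h z hz).trans (EReal.coe_le_coe_iff.2 hm)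

theorem PB.anti {u : E → EReal} {K : Set E} {ε ε' m : ℝ} (h : PB u K ε m) (hε : ε' ≤ ε) :
    PB u K ε' m := fun z hz => h z (hz.trans hε)

theorem PB.of_add {u : E → EReal} {K : Set E} {ε m : ℝ} (h : ∀ η : ℝ, 0 < η → PB u K ε (m + η)) :
    PB u K ε m := by
  intro z hz
  apply EReal.le_of_forall_lt_iff_le.1
  intro y hy
  rw [EReal.coe_lt_coe_iff] at hy
  have := h (y - m) (by linarith) z hz
  rwa [add_sub_cancel] at this

/-- Upper semicontinuity near a compact set on which `u ≤ 0`. -/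
theorem PB.base {u : E → EReal} (hu : UpperSemicontinuous u) {K : Set E} (hK : IsCompact K)
    (hne : K.Nonempty) (h0 : ∀ w ∈ K, u w ≤ 0) {η : ℝ} (hη : 0 < η) : ∃ δ > 0, PB u K δ η := by
  have hopen : IsOpen {z | u z < (η : EReal)} := hu.isOpen_preimage _
  have hsub : K ⊆ {z | u z < (η : EReal)} := fun w hw =>
    (h0 w hw).trans_lt (by exact_mod_cast hη)
  obtain ⟨δ, hδ, hsub2⟩ := hK.exists_thickening_subset_open hopen hsub
  refine ⟨δ / 2, by positivity, fun z hz => ?_⟩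
  have h1 : z ∈ thickening δ K := by
    obtain ⟨q, hq, hdq⟩ := hK.exists_infDist_eq_dist hne z
    rw [mem_thickening_iff]
    exact ⟨q, hq, by rw [← hdq]; linarith⟩
  have h2 := hsub2 h1
  exact le_of_lt h2

theorem PB.exists_bound {u : E → EReal} (hu : IsPSH u) {K : Set E} (hK : IsCompact K)
    (hne : K.Nonempty) : ∃ M : ℝ, 0 ≤ M ∧ PB u K 1 M := by
  have : ProperSpace E := FiniteDimensional.proper ℂ E
  obtain ⟨R, hR⟩ := hK.isBounded.exists_norm_le
  obtain ⟨p, hp⟩ := hne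
  have hR0 : 0 ≤ R := (norm_nonneg _).trans (hR p hp)
  obtain ⟨zB, _, hzB⟩ := (hu.1.upperSemicontinuousOn (closedBall (0 : E) (R + 1))).exists_isMaxOn
    ⟨0, mem_closedBall_self (by linarith)⟩ (isCompact_closedBall _ _)
  have htop : u zB < ⊤ := by
    have := (hu.2 zB 0).2.1 0
    simpa using this
  obtain ⟨y, hy1, _⟩ := EReal.lt_iff_exists_real_btwn.1 htop
  refine ⟨max y 0, le_max_right _ _, fun z hz => ?_⟩
  obtain ⟨q, hq, hdq⟩ := hK.exists_infDist_eq_dist ⟨p, hp⟩ z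
  have h1 : z ∈ closedBall (0 : E) (R + 1) := by
    rw [mem_closedBall_zero_iff]
    have h2 : ‖z - q‖ ≤ 1 := by rw [← dist_eq_norm, ← hdq]; exact hz
    calc ‖z‖ = ‖q + (z - q)‖ := by congr 1; abel
      _ ≤ ‖q‖ + ‖z - q‖ := norm_add_le _ _
      _ ≤ R + 1 := add_le_add (hR q hq) h2
  refine (hzB h1).trans (hy1.le.trans ?_)
  exact EReal.coe_le_coe_iff.2 (le_max_left _ _)

/-- The abstract iteration. -/
theorem iterate {P : ℝ → ℝ → Prop} {φ : ℝ → ℝ} {s₀ : ℝ} (hφ : ∀ s, 0 < s → φ (s / 2) ≤ φ s / 2)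
    (hmono : ∀ s m m', m ≤ m' → P s m → P s m')
    (hanti : ∀ s s' m, 0 < s' → s' ≤ s → P s m → P s' m)
    (hφ0 : ∀ s, 0 < s → 0 ≤ φ s)
    (hbase : ∀ η : ℝ, 0 < η → ∃ δ > 0, P δ η)
    (hstep : ∀ s, 0 < s → s ≤ s₀ → ∀ m, 0 ≤ m → P (s / 2) m → P s (m + φ s)) {s : ℝ} (hs : 0 < s)
    (hs₀ : s ≤ s₀) {η : ℝ} (hη : 0 < η) : P s (η + 2 * φ s) := by
  have key : ∀ J : ℕ, ∀ s, 0 < s → s ≤ s₀ → P (s / 2 ^ J) η → P s (η + 2 * φ s) := by
    intro J
    induction J with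
    | zero =>
      intro s hs _ h
      rw [pow_zero, div_one] at h
      exact hmono _ _ _ (by linarith [hφ0 s hs]) h
    | succ J ih =>
      intro s hs hs₀ h
      have h1 : s / 2 ^ (J + 1) = s / 2 / 2 ^ J := by rw [pow_succ]; field_simp
      rw [h1] at h
      have h2 := ih (s / 2) (by positivity) (by linarith) h
      have h3 : P (s / 2) (η + φ s) := hmono _ _ _ (by linarith [hφ s hs]) h2
      have h4 := hstep s hs hs₀ _ (by linarith [hφ0 s hs]) h3
      exact hmono _ _ _ (by linarith) h4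
  obtain ⟨δ, hδ, hPδ⟩ := hbase η hη
  obtain ⟨J, hJ⟩ := exists_pow_lt_of_lt_one (show 0 < δ / s by positivity)
    (show (1 / 2 : ℝ) < 1 by norm_num)
  apply key J s hs hs₀
  apply hanti δ _ _ (by positivity) _ hPδ
  rw [lt_div_iff₀ hs] at hJ
  have : s / 2 ^ J = (1 / 2) ^ J * s := by
    rw [one_div, inv_pow]; ring
  rw [this]; exact hJ.le

/-- The geometric property: through every point near `K` there is a holomorphic disc whose real
diameter is very close to `K`. -/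
def DiscProp (K : Set E) (C h₀ τ₀ : ℝ) : Prop :=
  ∀ h : ℝ, 0 < h → h ≤ h₀ → ∀ z : E, infDist z K ≤ h ^ 2 → ∃ f : ℂ → E, Differentiable ℂ f ∧
    f (h * Complex.I) = z ∧ (∀ ζ : ℂ, ‖ζ‖ ≤ τ₀ → infDist (f ζ) K ≤ 1) ∧
    ∀ t : ℝ, |t| ≤ τ₀ → infDist (f t) K ≤ C * (|t| ^ 7 + h ^ 3)

theorem weak_step {u : E → EReal} (hu : IsPSH u) {K : Set E} {C h₀ τ₀ : ℝ} (hC : 1 ≤ C)
    (hG : DiscProp K C h₀ τ₀) {M : ℝ} (hM0 : 0 ≤ M) (hM : PB u K 1 M) {s : ℝ} (hs : 0 < s)
    (hs1 : s ≤ 1) (hsh : s ≤ h₀) (hsτ : s ≤ τ₀) (hsC : 128 * C * s ≤ 1) {m : ℝ} (hm : 0 ≤ m)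
    (hP : PB u K ((s / 2) ^ 6) m) : PB u K (s ^ 6) (m + 2 * M * s ^ 2) := by
  intro z hz
  have hs3 : s ^ 3 ≤ s := by
    calc s ^ 3 = s * (s * s) := by ring
      _ ≤ s * 1 := mul_le_mul_of_nonneg_left (by nlinarith) hs.le
      _ = s := mul_one _
  obtain ⟨f, hfd, hfz, hf1, hf2⟩ := hG (s ^ 3) (by positivity) (by linarith) z
    (hz.trans (le_of_eq (by ring)))
  have hL : 0 ≤ M / s ^ 2 := by positivity
  have hres := half_disc hu hfd (τ := s) (m := m) (L := M / s ^ 2) (M := M) (h := s ^ 3) hL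
    (fun ζ hζ => hM _ (hf1 ζ (hζ.trans hsτ)))
    (by rw [div_mul_cancel₀ _ (by positivity)]; linarith) ?_ (by positivity) hs3
  · rw [hfz] at hres
    refine hres.trans ?_
    rw [EReal.coe_le_coe_iff]
    apply le_of_eq
    field_simp
  · intro t ht
    have h1 := hf2 t (ht.trans hsτ)
    have h2 : C * (|t| ^ 7 + (s ^ 3) ^ 3) ≤ (s / 2) ^ 6 := by
      have h3 : |t| ^ 7 ≤ s ^ 7 := pow_le_pow_left₀ (abs_nonneg _) ht 7
      have h4 : (s ^ 3) ^ 3 ≤ s ^ 7 := by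
        rw [← pow_mul]
        exact pow_le_pow_of_le_one hs.le hs1 (by norm_num)
      have h5 : C * (|t| ^ 7 + (s ^ 3) ^ 3) ≤ C * (2 * s ^ 7) :=
        mul_le_mul_of_nonneg_left (by linarith) (by linarith)
      have h6 : C * (2 * s ^ 7) = (128 * C * s) * (s ^ 6 / 64) := by ring
      have h7 : (128 * C * s) * (s ^ 6 / 64) ≤ 1 * (s ^ 6 / 64) :=
        mul_le_mul_of_nonneg_right hsC (by positivity)
      have h8 : (s / 2) ^ 6 = s ^ 6 / 64 := by ring
      linarith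
    refine (hP _ (h1.trans h2)).trans ?_
    rw [EReal.coe_le_coe_iff]
    have : 0 ≤ M / s ^ 2 * t ^ 2 := by positivity
    linarith

/-- The conclusion of the weak iteration. -/
theorem weak_bound {u : E → EReal} (hu : IsPSH u) {K : Set E} (hK : IsCompact K)
    (hne : K.Nonempty) (h0 : ∀ w ∈ K, u w ≤ 0) {C h₀ τ₀ s₀ : ℝ} (hC : 1 ≤ C)
    (hG : DiscProp K C h₀ τ₀) {M : ℝ} (hM0 : 0 ≤ M) (hM : PB u K 1 M)
    (hs1 : s₀ ≤ 1) (hsh : s₀ ≤ h₀) (hsτ : s₀ ≤ τ₀) (hsC : 128 * C * s₀ ≤ 1) {s : ℝ} (hs : 0 < s)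
    (hs₀ : s ≤ s₀) : PB u K (s ^ 6) (4 * M * s ^ 2) := by
  apply PB.of_add
  intro η hη
  have h := iterate (P := fun s m => PB u K (s ^ 6) m) (φ := fun s => 2 * M * s ^ 2) (s₀ := s₀)
    (fun s hs => by
      have : 0 ≤ M * s ^ 2 := by positivity
      nlinarith)
    (fun s m m' hm h => h.mono hm)
    (fun s s' m hs' hss' h => h.anti (pow_le_pow_left₀ hs'.le hss' 6))
    (fun s hs => by positivity)
    (fun η hη => by
      obtain ⟨δ, hδ, h⟩ := PB.base hu.1 hK hne h0 hη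
      refine ⟨min δ 1, by positivity, h.anti ?_⟩
      calc (min δ 1) ^ 6 ≤ (min δ 1) ^ 1 :=
            pow_le_pow_of_le_one (by positivity) (min_le_right _ _) (by norm_num)
        _ = min δ 1 := pow_one _
        _ ≤ δ := min_le_left _ _)
    (fun s hs hs₀ m hm h => weak_step hu hC hG hM0 hM hs (hs₀.trans hs1) (hs₀.trans hsh)
      (hs₀.trans hsτ) (by nlinarith) hm h) hs hs₀ hη
  refine h.mono (le_of_eq ?_)
  ring

/-- Uniform bound on the unit neighbourhood of `K`. -/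
theorem uniform_bound {K : Set E} (hK : IsCompact K) (hne : K.Nonempty) {C h₀ τ₀ : ℝ} (hC : 1 ≤ C)
    (hh₀ : 0 < h₀) (hτ₀ : 0 < τ₀) (hG : DiscProp K C h₀ τ₀) :
    ∃ M : ℝ, 0 ≤ M ∧ ∀ u : E → EReal, InLelong u → (∀ w ∈ K, u w ≤ 0) → PB u K 1 M := by
  obtain ⟨p, hp⟩ := hne
  obtain ⟨R, hR⟩ := hK.isBounded.subset_closedBall p
  -- choice of the scale
  obtain ⟨s₀, hs₀, hs1, hsh, hsτ, hsC, hs3⟩ : ∃ s₀ : ℝ, 0 < s₀ ∧ s₀ ≤ 1 ∧ s₀ ≤ h₀ ∧ s₀ ≤ τ₀ ∧
      128 * C * s₀ ≤ 1 ∧ s₀ ≤ 1 / 3 := by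
    refine ⟨min (min h₀ τ₀) (min (1 / (128 * C)) (1 / 3)), by positivity, ?_, ?_, ?_, ?_, ?_⟩
    · exact ((min_le_right _ _).trans (min_le_right _ _)).trans (by norm_num)
    · exact (min_le_left _ _).trans (min_le_left _ _)
    · exact (min_le_left _ _).trans (min_le_right _ _)
    · have : min (min h₀ τ₀) (min (1 / (128 * C)) (1 / 3)) ≤ 1 / (128 * C) :=
        (min_le_right _ _).trans (min_le_left _ _)
      rw [le_div_iff₀ (by positivity)] at this
      linarith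
    · exact (min_le_right _ _).trans (min_le_right _ _)
  set r : ℝ := s₀ ^ 6 with hr
  have hr0 : 0 < r := by positivity
  have hr1 : r ≤ 1 := by rw [hr]; exact pow_le_one₀ hs₀.le hs1
  set R' : ℝ := max R 0 + 1 with hR'
  have hR'1 : 1 ≤ R' := by rw [hR']; linarith [le_max_right R 0]
  set Λ : ℝ := Real.log (R' / r) with hΛ
  have hΛ0 : 0 ≤ Λ := Real.log_nonneg (by rw [le_div_iff₀ hr0]; linarith)
  refine ⟨2 * Λ, by positivity, ?_⟩
  intro u hu h0
  have hstep : ∀ M : ℝ, 0 ≤ M → PB u K 1 M → PB u K 1 (M / 2 + Λ) := by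
    intro M hM0 hM
    have h1 := weak_bound hu.1 hK ⟨p, hp⟩ h0 hC hG hM0 hM hs1 hsh hsτ hsC hs₀ (le_refl _)
    have h2 : 4 * M * s₀ ^ 2 ≤ M / 2 := by
      have : s₀ ^ 2 ≤ 1 / 9 := by nlinarith
      nlinarith
    have h3 := h1.mono h2
    intro z hz
    refine walsh hu hr0 (p := p) (m := M / 2) ?_ (R := R') (by linarith) ?_
    · intro w hw
      apply h3
      refine (infDist_le_dist_of_mem hp).trans ?_
      rwa [mem_closedBall] at hw
    · obtain ⟨q, hq, hdq⟩ := hK.exists_infDist_eq_dist ⟨p, hp⟩ z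
      rw [← dist_eq_norm]
      have h4 := dist_triangle z q p
      have h5 := hR hq
      rw [mem_closedBall] at h5
      have h6 := le_max_left R 0
      rw [hR']
      linarith
  obtain ⟨M, hM0, hM⟩ := PB.exists_bound hu.1 hK ⟨p, hp⟩
  have hiter : ∀ j : ℕ, PB u K 1 (2 * Λ + M / 2 ^ j) := by
    intro j
    induction j with
    | zero => rw [pow_zero, div_one]; exact hM.mono (by linarith)
    | succ j ih =>
      have h1 := hstep _ (by positivity) ih
      refine h1.mono (le_of_eq ?_)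
      rw [pow_succ]; field_simp; ring
  apply PB.of_add
  intro η hη
  have hlim : Tendsto (fun j : ℕ => M / 2 ^ j) atTop (𝓝 0) := by
    have : Tendsto (fun j : ℕ => M * (1 / 2 : ℝ) ^ j) atTop (𝓝 (M * 0)) :=
      (tendsto_pow_atTop_nhds_zero_of_lt_one (by norm_num) (by norm_num)).const_mul M
    rw [mul_zero] at this
    refine this.congr fun j => ?_
    rw [one_div, inv_pow]; rfl
  obtain ⟨j, hj⟩ := (hlim.eventually (gt_mem_nhds hη)).exists
  exact (hiter j).mono (by linarith)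

theorem strong_step {u : E → EReal} (hu : IsPSH u) {K : Set E} {C h₀ τ₀ s₀ τ₁ : ℝ} (hC : 1 ≤ C)
    (hG : DiscProp K C h₀ τ₀) {M : ℝ} (hM0 : 0 ≤ M) (hM : PB u K 1 M)
    (hweak : ∀ s, 0 < s → s ≤ s₀ → PB u K (s ^ 6) (4 * M * s ^ 2)) (h0 : ∀ w ∈ K, u w ≤ 0)
    (hτ₁ : 0 < τ₁) (hττ : τ₁ ≤ τ₀) (hτs : τ₁ ≤ s₀) (hτC : 2 * C * τ₁ ≤ 1) {h : ℝ} (hh : 0 < h)
    (hhh : h ≤ h₀) (hhτ : h ≤ τ₁) (hhC : 8 * C * h ≤ 1) {m : ℝ} (hm : 0 ≤ m)
    (hP : PB u K ((h / 2) ^ 2) m) :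
    PB u K (h ^ 2) (m + 2 * max (4 * M) (M / τ₁ ^ 2) * τ₁ * h) := by
  intro z hz
  obtain ⟨f, hfd, hfz, hf1, hf2⟩ := hG h hh hhh z hz
  set L : ℝ := max (4 * M) (M / τ₁ ^ 2) with hL
  have hL0 : 0 ≤ L := (by positivity : 0 ≤ 4 * M).trans (le_max_left _ _)
  have hML : M ≤ L * τ₁ ^ 2 := by
    have : M / τ₁ ^ 2 ≤ L := le_max_right _ _
    rwa [div_le_iff₀ (by positivity)] at this
  have hres := half_disc hu hfd (τ := τ₁) (m := m) (L := L) (M := M) (h := h) hL0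
    (fun ζ hζ => hM _ (hf1 ζ (hζ.trans hττ))) (by linarith) ?_ hh hhτ
  · rw [hfz] at hres
    exact hres
  · intro t ht
    have h1 := hf2 t (ht.trans hττ)
    have hLt : 0 ≤ L * t ^ 2 := by positivity
    rcases le_or_gt (|t| ^ 7) (h ^ 3) with hc | hc
    · have h2 : C * (|t| ^ 7 + h ^ 3) ≤ (h / 2) ^ 2 := by
        have h3 : C * (|t| ^ 7 + h ^ 3) ≤ C * (2 * h ^ 3) :=
          mul_le_mul_of_nonneg_left (by linarith) (by linarith)
        have h4 : C * (2 * h ^ 3) = (8 * C * h) * (h ^ 2 / 4) := by ring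
        have h5 : (8 * C * h) * (h ^ 2 / 4) ≤ 1 * (h ^ 2 / 4) :=
          mul_le_mul_of_nonneg_right hhC (by positivity)
        have h6 : (h / 2) ^ 2 = h ^ 2 / 4 := by ring
        linarith
      refine (hP _ (h1.trans h2)).trans ?_
      rw [EReal.coe_le_coe_iff]; linarith
    · have ht0 : 0 < |t| := by
        by_contra hneg
        have h2 : |t| = 0 := le_antisymm (not_lt.1 hneg) (abs_nonneg _)
        rw [h2] at hc
        have : 0 < h ^ 3 := by positivity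
        norm_num at hc
        linarith
      have h2 : C * (|t| ^ 7 + h ^ 3) ≤ |t| ^ 6 := by
        have h3 : C * (|t| ^ 7 + h ^ 3) ≤ C * (2 * |t| ^ 7) :=
          mul_le_mul_of_nonneg_left (by linarith) (by linarith)
        have h4 : C * (2 * |t| ^ 7) = (2 * C * |t|) * |t| ^ 6 := by ring
        have h5 : 2 * C * |t| ≤ 1 := by nlinarith
        have h6 : (2 * C * |t|) * |t| ^ 6 ≤ 1 * |t| ^ 6 :=
          mul_le_mul_of_nonneg_right h5 (by positivity)
        linarith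
      refine (hweak |t| ht0 (ht.trans hτs) _ (h1.trans h2)).trans ?_
      rw [EReal.coe_le_coe_iff, sq_abs]
      have : 4 * M ≤ L := le_max_left _ _
      nlinarith [sq_nonneg t]

/-- The sharp estimate near `K`. -/
theorem hcp {K : Set E} (hK : IsCompact K) (hne : K.Nonempty) {C h₀ τ₀ : ℝ} (hC : 1 ≤ C)
    (hh₀ : 0 < h₀) (hτ₀ : 0 < τ₀) (hG : DiscProp K C h₀ τ₀) :
    ∃ A d : ℝ, 0 < A ∧ 0 < d ∧ ∀ u : E → EReal, InLelong u → (∀ w ∈ K, u w ≤ 0) →
      ∀ z, infDist z K ≤ d → u z ≤ ((A * √(infDist z K) : ℝ) : EReal) := by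
  obtain ⟨M, hM0, hM⟩ := uniform_bound hK hne hC hh₀ hτ₀ hG
  obtain ⟨s₀, hs₀, hs1, hsh, hsτ, hsC⟩ : ∃ s₀ : ℝ, 0 < s₀ ∧ s₀ ≤ 1 ∧ s₀ ≤ h₀ ∧ s₀ ≤ τ₀ ∧
      128 * C * s₀ ≤ 1 := by
    refine ⟨min (min h₀ τ₀) (min (1 / (128 * C)) 1), by positivity, ?_, ?_, ?_, ?_⟩
    · exact ((min_le_right _ _).trans (min_le_right _ _))
    · exact (min_le_left _ _).trans (min_le_left _ _)
    · exact (min_le_left _ _).trans (min_le_right _ _)
    · have : min (min h₀ τ₀) (min (1 / (128 * C)) 1) ≤ 1 / (128 * C) :=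
        (min_le_right _ _).trans (min_le_left _ _)
      rw [le_div_iff₀ (by positivity)] at this
      linarith
  -- with `τ₁ = s₀`
  have hτC : 2 * C * s₀ ≤ 1 := by nlinarith
  set h₁ : ℝ := s₀ / 16 with hh₁
  have hh₁0 : 0 < h₁ := by positivity
  set B : ℝ := 2 * max (4 * M) (M / s₀ ^ 2) * s₀ with hB
  have hB0 : 0 ≤ B := by
    have : 0 ≤ max (4 * M) (M / s₀ ^ 2) := (by positivity : 0 ≤ 4 * M).trans (le_max_left _ _)
    positivity
  refine ⟨2 * B + 1, h₁ ^ 2, by positivity, by positivity, ?_⟩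
  intro u hu h0 z hz
  have hweak : ∀ s, 0 < s → s ≤ s₀ → PB u K (s ^ 6) (4 * M * s ^ 2) := fun s hs hss =>
    weak_bound hu.1 hK hne h0 hC hG hM0 (hM u hu h0) hs1 hsh hsτ hsC hs hss
  have hmain : ∀ h, 0 < h → h ≤ h₁ → PB u K (h ^ 2) (2 * B * h) := by
    intro h hh hhh
    apply PB.of_add
    intro η hη
    have h1 := iterate (P := fun s m => PB u K (s ^ 2) m) (φ := fun s => B * s) (s₀ := h₁)
      (fun s hs => by linarith)
      (fun s m m' hm h => h.mono hm)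
      (fun s s' m hs' hss' h => h.anti (pow_le_pow_left₀ hs'.le hss' 2))
      (fun s hs => by positivity)
      (fun η hη => by
        obtain ⟨δ, hδ, h⟩ := PB.base hu.1.1 hK hne h0 hη
        refine ⟨min δ 1, by positivity, h.anti ?_⟩
        calc (min δ 1) ^ 2 ≤ (min δ 1) ^ 1 :=
              pow_le_pow_of_le_one (by positivity) (min_le_right _ _) (by norm_num)
          _ = min δ 1 := pow_one _
          _ ≤ δ := min_le_left _ _)
      (fun s hs hs₁ m hm h => by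
        have h2 : s ≤ s₀ := by rw [hh₁] at hs₁; linarith
        exact strong_step hu.1 hC hG hM0 (hM u hu h0) hweak h0 hs₀ hsτ (le_refl _) hτC hs
          (h2.trans hsh) h2 (by rw [hh₁] at hs₁; nlinarith) hm h) hh hhh hη
    exact h1.mono (by linarith)
  rcases eq_or_lt_of_le (infDist_nonneg (x := z) (s := K)) with hd | hd
  · have h1 : z ∈ K := (hK.isClosed.mem_iff_infDist_zero hne).2 hd.symm
    rw [← hd, Real.sqrt_zero, mul_zero]
    exact h0 z h1
  · have h1 : √(infDist z K) ≤ h₁ := by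
      rw [Real.sqrt_le_left hh₁0.le]; exact hz
    have h2 := hmain (√(infDist z K)) (Real.sqrt_pos.2 hd) h1 z
      (by rw [Real.sq_sqrt infDist_nonneg])
    refine h2.trans ?_
    rw [EReal.coe_le_coe_iff]
    have : 0 ≤ √(infDist z K) := Real.sqrt_nonneg _
    nlinarith

end Pool.Agent.Helper32.Siciak
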