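import Mathlib

open Set Metric Filter Topology
open scoped ContDiff

namespace Pool.Agent.Helper32.Siciak

/-- Local parametrisation of `{ρ = 0}`, adapted to `r`. -/
theorem exists_chart {E : Type*} [NormedAddCommGroup E] [NormedSpace ℝ E] [FiniteDimensional ℝ E]
    {k : ℕ} {ρ : E → (Fin k → ℝ)} {r : E → ℝ} {p : E} (hρ : ContDiffAt ℝ 9 ρ p)
    (hr : ContDiffAt ℝ 9 r p) (hρp : ρ p = 0) (hrp : r p = 0)
    (hsurj : Function.Surjective (fderiv ℝ ρ p)) {v₀ : E} (hv₀ : fderiv ℝ ρ p v₀ = 0)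
    (hrv₀ : fderiv ℝ r p v₀ ≠ 0) :
    ∃ (N : Submodule ℝ E) (Ψ : N × ℝ → E), ContDiff ℝ 9 Ψ ∧ Ψ 0 = p ∧
      (∃ δ > 0, ∀ x : N × ℝ, ‖x‖ < δ → ρ (Ψ x) = 0 ∧ r (Ψ x) = x.2) ∧
      (∀ η > 0, ∀ᶠ q in 𝓝 p, ρ q = 0 → ∃ x : N × ℝ, ‖x‖ < η ∧ Ψ x = q ∧ x.2 = r q) ∧
      (∀ v, fderiv ℝ ρ p v = 0 → ∃ X, fderiv ℝ Ψ 0 X = v) := by
  have hcomplete : CompleteSpace E := FiniteDimensional.complete ℝ E
  set A : E →L[ℝ] (Fin k → ℝ) × ℝ := (fderiv ℝ ρ p).prod (fderiv ℝ r p) with hA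
  have hAsurj : Function.Surjective A := by
    rintro ⟨y, s⟩
    obtain ⟨x, hx⟩ := hsurj y
    refine ⟨x + ((s - fderiv ℝ r p x) / fderiv ℝ r p v₀) • v₀, ?_⟩
    rw [hA, ContinuousLinearMap.prod_apply, map_add, map_smul, map_add, map_smul, hx, hv₀,
      smul_zero, add_zero, smul_eq_mul, div_mul_cancel₀ _ hrv₀]
    congr 1
    ring
  set N : Submodule ℝ E := LinearMap.ker (A : E →ₗ[ℝ] (Fin k → ℝ) × ℝ) with hN
  obtain ⟨π₀, hπ₀⟩ := N.subtype.exists_leftInverse_of_injective (by simp)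
  set π : E →L[ℝ] N := LinearMap.toContinuousLinearMap π₀ with hπ
  have hπN : ∀ n : N, π (n : E) = n := fun n => LinearMap.congr_fun hπ₀ n
  -- the linear isomorphism
  set L : E →L[ℝ] N × ((Fin k → ℝ) × ℝ) := π.prod A with hL
  have hLbij : Function.Bijective (L : E →ₗ[ℝ] N × ((Fin k → ℝ) × ℝ)) := by
    constructor
    · rw [injective_iff_map_eq_zero]
      intro x hx
      have h1 : π x = 0 := congrArg Prod.fst hx
      have h2 : A x = 0 := congrArg Prod.snd hx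
      have h3 : x ∈ N := LinearMap.mem_ker.2 h2
      have h4 := hπN ⟨x, h3⟩
      simp only at h4
      rw [h1] at h4
      exact (congrArg Subtype.val h4).symm
    · rintro ⟨n, y⟩
      obtain ⟨x, hx⟩ := hAsurj y
      refine ⟨x - (π x : E) + n, ?_⟩
      have h1 : A (π x : E) = 0 := LinearMap.mem_ker.1 (π x).2
      have h2 : A (n : E) = 0 := LinearMap.mem_ker.1 n.2
      apply Prod.ext
      · change π (x - (π x : E) + n) = n
        rw [map_add, map_sub, hπN, hπN, sub_self, zero_add]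
      · change A (x - (π x : E) + n) = y
        rw [map_add, map_sub, h1, h2, hx, sub_zero, add_zero]
  set e : E ≃L[ℝ] N × ((Fin k → ℝ) × ℝ) :=
    (LinearEquiv.ofBijective (L : E →ₗ[ℝ] N × ((Fin k → ℝ) × ℝ)) hLbij).toContinuousLinearEquiv
    with he
  have heL : ∀ x, e x = L x := fun x => rfl
  have heL' : (e : E →L[ℝ] N × ((Fin k → ℝ) × ℝ)) = L := by ext1 x; exact heL x
  -- the nonlinear map
  set Φ : E → N × ((Fin k → ℝ) × ℝ) := fun q => (π (q - p), (ρ q, r q)) with hΦ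
  have hΦc : ContDiffAt ℝ 9 Φ p := by
    have h1 : ContDiffAt ℝ 9 (fun q => π (q - p)) p := by fun_prop
    exact h1.prodMk (hρ.prodMk hr)
  have hΦd : HasFDerivAt Φ (e : E →L[ℝ] N × ((Fin k → ℝ) × ℝ)) p := by
    rw [heL']
    have h1 : HasFDerivAt (fun q => π (q - p)) π p := by
      have h0 : HasFDerivAt (fun q : E => q - p) (ContinuousLinearMap.id ℝ E) p :=
        (hasFDerivAt_id p).sub_const p
      exact HasFDerivAt.comp (g := π) (f := fun q : E => q - p) (g' := π) p π.hasFDerivAt h0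
    have h2 : HasFDerivAt ρ (fderiv ℝ ρ p) p := (hρ.differentiableAt (by norm_num)).hasFDerivAt
    have h3 : HasFDerivAt r (fderiv ℝ r p) p := (hr.differentiableAt (by norm_num)).hasFDerivAt
    exact h1.prodMk (h2.prodMk h3)
  have hΦp : Φ p = 0 := by simp [hΦ, hρp, hrp]
  set Hm := hΦc.toOpenPartialHomeomorph Φ hΦd (by norm_num) with hHm
  have hcoe : ∀ q, Hm q = Φ q := fun q => rfl
  have hpsrc : p ∈ Hm.source := hΦc.mem_toOpenPartialHomeomorph_source hΦd (by norm_num)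
  have h0tgt : (0 : N × ((Fin k → ℝ) × ℝ)) ∈ Hm.target := by
    rw [← hΦp]; exact hΦc.image_mem_toOpenPartialHomeomorph_target hΦd (by norm_num)
  have hsymm0 : Hm.symm 0 = p := by
    rw [← hΦp, ← hcoe]; exact Hm.left_inv hpsrc
  have hsymmc : ContDiffAt ℝ 9 Hm.symm 0 := by
    have := hΦc.to_localInverse hΦd (by norm_num)
    rw [hΦp] at this
    exact this
  have hsymmd : HasFDerivAt Hm.symm (e.symm : N × ((Fin k → ℝ) × ℝ) →L[ℝ] E) 0 := by
    apply Hm.hasFDerivAt_symm h0tgt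
    rw [hsymm0]
    exact hΦd
  -- the parametrisation
  let ι : N × ℝ →L[ℝ] N × ((Fin k → ℝ) × ℝ) :=
    (ContinuousLinearMap.fst ℝ N ℝ).prod
      ((0 : N × ℝ →L[ℝ] (Fin k → ℝ)).prod (ContinuousLinearMap.snd ℝ N ℝ))
  have hι : ∀ x : N × ℝ, ι x = (x.1, (0, x.2)) := fun x => rfl
  set Ψ₀ : N × ℝ → E := fun x => Hm.symm (ι x) with hΨ₀
  have hι0 : ι 0 = 0 := map_zero _
  have hΨ₀c : ContDiffAt ℝ 9 Ψ₀ 0 := by
    apply ContDiffAt.comp
    · rw [hι0]; exact hsymmc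
    · exact ι.contDiff.contDiffAt
  have hΨ₀d : HasFDerivAt Ψ₀ ((e.symm : N × ((Fin k → ℝ) × ℝ) →L[ℝ] E).comp ι) 0 := by
    apply HasFDerivAt.comp
    · rw [hι0]; exact hsymmd
    · exact ι.hasFDerivAt
  obtain ⟨δ₁, hδ₁, hδ₁c⟩ := Metric.eventually_nhds_iff.1 (hΨ₀c.eventually (by decide))
  let χ : ContDiffBump (0 : N × ℝ) := ⟨δ₁ / 3, δ₁ / 2, by positivity, by linarith⟩
  set Ψ : N × ℝ → E := fun x => χ x • Ψ₀ x with hΨ
  have hΨeq : ∀ x, ‖x‖ < δ₁ / 3 → Ψ x = Ψ₀ x := by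
    intro x hx
    simp only [hΨ]
    rw [χ.one_of_mem_closedBall (by rw [mem_closedBall_zero_iff]; exact hx.le), one_smul]
  have hΨc : ContDiff ℝ 9 Ψ := by
    rw [contDiff_iff_contDiffAt]
    intro x
    by_cases hx : dist x 0 < δ₁
    · exact χ.contDiffAt.smul (hδ₁c hx)
    · have hxs : x ∉ tsupport χ := by
        rw [χ.tsupport_eq]
        intro h
        rw [mem_closedBall] at h
        have h2 : dist x 0 ≤ δ₁ / 2 := h
        push Not at hx
        linarith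
      have h1 : Ψ =ᶠ[𝓝 x] fun _ => 0 := by
        have h2 : (tsupport χ)ᶜ ∈ 𝓝 x := (isClosed_tsupport _).isOpen_compl.mem_nhds hxs
        filter_upwards [h2] with y hy
        simp only [hΨ]
        rw [image_eq_zero_of_notMem_tsupport hy, zero_smul]
      exact contDiffAt_const.congr_of_eventuallyEq h1
  have hΨev : Ψ =ᶠ[𝓝 0] Ψ₀ := by
    filter_upwards [ball_mem_nhds (0 : N × ℝ) (show 0 < δ₁ / 3 by positivity)] with x hx
    exact hΨeq x (by simpa using hx)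
  refine ⟨N, Ψ, hΨc, ?_, ?_, ?_, ?_⟩
  · rw [hΨeq 0 (by simpa using hδ₁), hΨ₀]
    simp only [hι0, hsymm0]
  · -- identities
    have h1 : ∀ᶠ x : N × ℝ in 𝓝 0, ι x ∈ Hm.target := by
      have : Tendsto ι (𝓝 0) (𝓝 0) := by
        have := ι.continuous.tendsto 0
        rwa [hι0] at this
      exact this.eventually (Hm.open_target.mem_nhds h0tgt)
    obtain ⟨δ₂, hδ₂, hδ₂t⟩ := Metric.eventually_nhds_iff.1 h1
    refine ⟨min δ₂ (δ₁ / 3), by positivity, fun x hx => ?_⟩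
    have hx1 : ‖x‖ < δ₁ / 3 := hx.trans_le (min_le_right _ _)
    have hx2 : ι x ∈ Hm.target := hδ₂t (by
      rw [dist_zero_right]; exact hx.trans_le (min_le_left _ _))
    rw [hΨeq x hx1]
    have h2 : Φ (Ψ₀ x) = ι x := Hm.right_inv hx2
    have h3 : ρ (Ψ₀ x) = 0 := congrArg (fun w => w.2.1) h2
    have h4 : r (Ψ₀ x) = x.2 := congrArg (fun w => w.2.2) h2
    exact ⟨h3, h4⟩
  · intro η hη
    have h1 : ∀ᶠ q in 𝓝 p, q ∈ Hm.source := Hm.open_source.mem_nhds hpsrc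
    have hcont : ContinuousAt (fun q => ((π (q - p), r q) : N × ℝ)) p := by
      have h2 : ContinuousAt (fun q => π (q - p)) p := by fun_prop
      exact h2.prodMk hr.continuousAt
    have h2 : ∀ᶠ q in 𝓝 p, ‖((π (q - p), r q) : N × ℝ)‖ < min η (δ₁ / 3) := by
      have h3 : Tendsto (fun q => ‖((π (q - p), r q) : N × ℝ)‖) (𝓝 p) (𝓝 0) := by
        have := hcont.tendsto.norm
        simpa [hrp] using this
      exact h3.eventually (gt_mem_nhds (by positivity))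
    filter_upwards [h1, h2] with q hq1 hq2 hρq
    refine ⟨(π (q - p), r q), hq2.trans_le (min_le_left _ _), ?_, rfl⟩
    rw [hΨeq _ (hq2.trans_le (min_le_right _ _))]
    have h3 : ι (π (q - p), r q) = Hm q := by
      rw [hι, hcoe, hΦ]
      simp only [hρq]
    simp only [hΨ₀]
    rw [h3]
    exact Hm.left_inv hq1
  · intro v hv
    refine ⟨(π v, fderiv ℝ r p v), ?_⟩
    have h1 : HasFDerivAt Ψ ((e.symm : N × ((Fin k → ℝ) × ℝ) →L[ℝ] E).comp ι) 0 :=
      hΨ₀d.congr_of_eventuallyEq hΨev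
    rw [h1.fderiv]
    have h2 : ι (π v, fderiv ℝ r p v) = e v := by
      rw [hι, heL, hL, hA]
      simp [hv]
    change e.symm (ι (π v, fderiv ℝ r p v)) = v
    rw [h2, e.symm_apply_apply]

end Pool.Agent.Helper32.Siciak
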