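import Mathlib

open Set Metric Filter Topology
open scoped ContDiff Nat

namespace Pool.Agent.Helper32.Siciak

/-- Taylor formula for a curve given with its derivatives. -/
theorem taylor_bound {F : Type*} [NormedAddCommGroup F] [NormedSpace ℝ F] {C τ : ℝ} (n : ℕ) :
    ∀ (g : ℕ → ℝ → F), (∀ j < n, ∀ t, |t| ≤ τ → HasDerivAt (g j) (g (j + 1) t) t) →
      (∀ t, |t| ≤ τ → ‖g n t‖ ≤ C) → ∀ t, |t| ≤ τ →
      ‖g 0 t - ∑ j ∈ Finset.range n, (t ^ j / (j ! : ℝ)) • g j 0‖ ≤ C * |t| ^ n := by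
  induction n with
  | zero =>
    intro g _ hC t ht
    simpa using hC t ht
  | succ n ih =>
    intro g hg hC t ht
    have hC0 : 0 ≤ C := (norm_nonneg _).trans (hC t ht)
    have h1 := ih (fun j => g (j + 1)) (fun j hj => hg (j + 1) (by omega)) hC
    have hder : ∀ s : ℝ, HasDerivAt
        (fun s : ℝ => ∑ j ∈ Finset.range (n + 1), (s ^ j / (j ! : ℝ)) • g j 0)
        (∑ j ∈ Finset.range n, (s ^ j / (j ! : ℝ)) • g (j + 1) 0) s := by
      intro s
      have h2 : ∀ j ∈ Finset.range n, HasDerivAt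
          (fun s : ℝ => (s ^ (j + 1) / ((j + 1) ! : ℝ)) • g (j + 1) 0)
          ((s ^ j / (j ! : ℝ)) • g (j + 1) 0) s := by
        intro j _
        apply HasDerivAt.smul_const
        have h3 := (hasDerivAt_pow (j + 1) s).div_const ((j + 1) ! : ℝ)
        refine h3.congr_deriv ?_
        rw [Nat.factorial_succ, Nat.add_sub_cancel]
        push_cast
        have : (j ! : ℝ) ≠ 0 := by positivity
        have : ((j : ℝ) + 1) ≠ 0 := by positivity
        field_simp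
      have h3 := (HasDerivAt.fun_sum h2).add (hasDerivAt_const s ((s ^ 0 / (0 ! : ℝ)) • g 0 0))
      rw [add_zero] at h3
      refine h3.congr_of_eventuallyEq (Filter.Eventually.of_forall fun x => ?_)
      simp only [Pi.add_apply]
      rw [Finset.sum_range_succ']
      simp
    set R : ℝ → F := fun s => g 0 s - ∑ j ∈ Finset.range (n + 1), (s ^ j / (j ! : ℝ)) • g j 0 with hR
    have hR0 : R 0 = 0 := by
      simp only [hR]
      rw [Finset.sum_range_succ']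
      simp
    have hconv : Convex ℝ (Icc (-|t|) |t|) := convex_Icc _ _
    have h4 : ∀ s ∈ Icc (-|t|) |t|, HasDerivWithinAt R
        (g 1 s - ∑ j ∈ Finset.range n, (s ^ j / (j ! : ℝ)) • g (j + 1) 0) (Icc (-|t|) |t|) s := by
      intro s hs
      have hst : |s| ≤ τ := (abs_le.2 hs).trans ht
      exact ((hg 0 (by omega) s hst).sub (hder s)).hasDerivWithinAt
    have h5 : ∀ s ∈ Icc (-|t|) |t|,
        ‖g 1 s - ∑ j ∈ Finset.range n, (s ^ j / (j ! : ℝ)) • g (j + 1) 0‖ ≤ C * |t| ^ n := by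
      intro s hs
      have hst : |s| ≤ |t| := abs_le.2 hs
      exact (h1 s (hst.trans ht)).trans
        (mul_le_mul_of_nonneg_left (pow_le_pow_left₀ (abs_nonneg _) hst n) hC0)
    have h6 := hconv.norm_image_sub_le_of_norm_hasDerivWithin_le h4 h5
      (show (0 : ℝ) ∈ Icc (-|t|) |t| from ⟨by linarith [abs_nonneg t], abs_nonneg t⟩)
      (show t ∈ Icc (-|t|) |t| from ⟨neg_abs_le t, le_abs_self t⟩)
    rw [hR0, sub_zero, sub_zero, Real.norm_eq_abs] at h6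
    calc ‖R t‖ ≤ C * |t| ^ n * |t| := h6
      _ = C * |t| ^ (n + 1) := by ring

variable {T : Type*} [NormedAddCommGroup T] [NormedSpace ℝ T] [FiniteDimensional ℝ T]
  {F : Type*} [NormedAddCommGroup F] [NormedSpace ℝ F]

/-- Iterated partial derivatives with respect to the last variable. -/
noncomputable def DD (G : T × T × ℝ → F) : ℕ → T × T × ℝ → F
  | 0 => G
  | (j + 1) => fun q => fderiv ℝ (DD G j) q (0, 0, 1)

theorem DD_contDiff {G : T × T × ℝ → F} {N : ℕ} (hG : ContDiff ℝ N G) :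
    ∀ j k : ℕ, j + k ≤ N → ContDiff ℝ k (DD G j) := by
  intro j
  induction j with
  | zero =>
    intro k hk
    exact hG.of_le (by exact_mod_cast (by omega : k ≤ N))
  | succ j ih =>
    intro k hk
    have h1 := ih (k + 1) (by omega)
    have h2 : ContDiff ℝ k (fderiv ℝ (DD G j)) := h1.fderiv_right (by norm_cast)
    exact h2.clm_apply contDiff_const

theorem DD_hasDerivAt {G : T × T × ℝ → F} {N : ℕ} (hG : ContDiff ℝ N G) {j : ℕ} (hj : j + 1 ≤ N)
    (a v : T) (t : ℝ) : HasDerivAt (fun t => DD G j (a, v, t)) (DD G (j + 1) (a, v, t)) t := by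
  have h1 : DifferentiableAt ℝ (DD G j) (a, v, t) :=
    ((DD_contDiff hG j 1 (by omega)).differentiable (by norm_num)) _
  have h2 : HasDerivAt (fun t : ℝ => ((a, v, t) : T × T × ℝ)) (0, 0, 1) t :=
    (hasDerivAt_const t a).prodMk ((hasDerivAt_const t v).prodMk (hasDerivAt_id t))
  exact h1.hasFDerivAt.comp_hasDerivAt t h2

/-- Taylor expansion of the curves `t ↦ Ψ (a + t v + t² b)`. -/
theorem curve_expansion {Ψ : T → F} (hΨ : ContDiff ℝ 9 Ψ) (b : T) :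
    ∃ Cs : ℝ, 1 ≤ Cs ∧ ∀ a v : T, ‖a‖ ≤ 1 → ‖v‖ ≤ 1 → ∃ c : ℕ → F, c 0 = Ψ a ∧
      c 1 = fderiv ℝ Ψ a v ∧ ‖c 2 - fderiv ℝ Ψ a b‖ ≤ Cs * ‖v‖ ∧ (∀ j < 7, ‖c j‖ ≤ Cs) ∧
      ∀ t : ℝ, |t| ≤ 1 → ‖Ψ (a + t • v + t ^ 2 • b) - ∑ j ∈ Finset.range 7, t ^ j • c j‖ ≤
        Cs * |t| ^ 7 := by
  have hproper : ProperSpace T := FiniteDimensional.proper ℝ T
  set G : T × T × ℝ → F := fun q => Ψ (q.1 + q.2.2 • q.2.1 + q.2.2 ^ 2 • b) with hG
  have hGc : ContDiff ℝ 9 G := by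
    apply hΨ.comp
    fun_prop
  have hGc' : ContDiff ℝ ((9 : ℕ) : ℕ∞) G := by exact_mod_cast hGc
  set Q : Set (T × T × ℝ) := closedBall (0 : T) 1 ×ˢ closedBall (0 : T) 1 ×ˢ closedBall (0 : ℝ) 1
    with hQ
  have hQc : IsCompact Q :=
    (isCompact_closedBall _ _).prod ((isCompact_closedBall _ _).prod (isCompact_closedBall _ _))
  have hbd : ∀ j : ℕ, j ≤ 7 → ∃ C : ℝ, ∀ q ∈ Q, ‖DD G j q‖ ≤ C := by
    intro j hj
    have h1 : ContDiff ℝ ((0 : ℕ) : ℕ∞) (DD G j) := DD_contDiff (N := 9) hGc' j 0 (by omega)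
    obtain ⟨C, hC⟩ := hQc.exists_bound_of_continuousOn h1.continuous.continuousOn
    exact ⟨C, hC⟩
  choose! Cf hCf using hbd
  -- second derivative of `Ψ`
  have hΨ2 : ContDiff ℝ 1 (fderiv ℝ Ψ) := hΨ.fderiv_right (by norm_num)
  have hΨ3 : Continuous (fderiv ℝ (fderiv ℝ Ψ)) := hΨ2.continuous_fderiv (by norm_num)
  obtain ⟨C2, hC2⟩ := (isCompact_closedBall (0 : T) 1).exists_bound_of_continuousOn
    (f := fderiv ℝ (fderiv ℝ Ψ)) hΨ3.continuousOn
  set Cs : ℝ := 1 + |C2| + ∑ j ∈ Finset.range 8, |Cf j| with hCs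
  have hCfs : ∀ j ≤ 7, Cf j ≤ Cs := by
    intro j hj
    have h1 : |Cf j| ≤ ∑ j ∈ Finset.range 8, |Cf j| :=
      Finset.single_le_sum (f := fun j => |Cf j|) (fun i _ => abs_nonneg _)
        (Finset.mem_range.2 (by omega))
    have h2 := le_abs_self (Cf j)
    have h3 := abs_nonneg C2
    linarith
  have hCs1 : 1 ≤ Cs := by
    have h1 : 0 ≤ ∑ j ∈ Finset.range 8, |Cf j| := Finset.sum_nonneg fun i _ => abs_nonneg _
    have h3 := abs_nonneg C2
    linarith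
  refine ⟨Cs, hCs1, ?_⟩
  intro a v ha hv
  have hmem : ∀ t : ℝ, |t| ≤ 1 → (a, v, t) ∈ Q := by
    intro t ht
    refine ⟨?_, ?_, ?_⟩
    · simpa using ha
    · simpa using hv
    · simpa using ht
  have hder : ∀ j < 7, ∀ t : ℝ, |t| ≤ 1 →
      HasDerivAt (fun t => DD G j (a, v, t)) (DD G (j + 1) (a, v, t)) t := fun j hj t _ =>
    DD_hasDerivAt (N := 9) hGc' (by omega) a v t
  -- first derivative
  have hcurve : ∀ t : ℝ, HasDerivAt (fun t : ℝ => a + t • v + t ^ 2 • b) (v + (2 * t) • b) t := by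
    intro t
    have h1 : HasDerivAt (fun t : ℝ => a + t • v) ((1 : ℝ) • v) t :=
      ((hasDerivAt_id t).smul_const v).const_add a
    have h2 : HasDerivAt (fun t : ℝ => t ^ 2 • b) ((2 * t) • b) t := by
      have := (hasDerivAt_pow 2 t).smul_const b
      refine this.congr_deriv ?_
      norm_num
    rw [one_smul] at h1
    exact h1.add h2
  have hΨd : Differentiable ℝ Ψ := hΨ.differentiable (by norm_num)
  have hD1 : ∀ t : ℝ, DD G 1 (a, v, t) =
      fderiv ℝ Ψ (a + t • v + t ^ 2 • b) (v + (2 * t) • b) := by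
    intro t
    have h1 := DD_hasDerivAt (N := 9) hGc' (j := 0) (by omega) a v t
    have h2 : HasDerivAt (fun t : ℝ => Ψ (a + t • v + t ^ 2 • b))
        (fderiv ℝ Ψ (a + t • v + t ^ 2 • b) (v + (2 * t) • b)) t :=
      (hΨd _).hasFDerivAt.comp_hasDerivAt t (hcurve t)
    exact h1.unique h2
  have hD2 : DD G 2 (a, v, 0) = (fderiv ℝ (fderiv ℝ Ψ) a v) v + fderiv ℝ Ψ a ((2 : ℝ) • b) := by
    have h1 := DD_hasDerivAt (N := 9) hGc' (j := 1) (by omega) a v 0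
    have h2 : HasDerivAt (fun t : ℝ => fderiv ℝ Ψ (a + t • v + t ^ 2 • b) (v + (2 * t) • b))
        ((fderiv ℝ (fderiv ℝ Ψ) a v) v + fderiv ℝ Ψ a ((2 : ℝ) • b)) 0 := by
      have h3 : HasDerivAt (fun t : ℝ => fderiv ℝ Ψ (a + t • v + t ^ 2 • b))
          (fderiv ℝ (fderiv ℝ Ψ) (a + (0 : ℝ) • v + (0 : ℝ) ^ 2 • b) (v + (2 * (0 : ℝ)) • b)) 0 :=
        ((hΨ2.differentiable (by norm_num)) _).hasFDerivAt.comp_hasDerivAt 0 (hcurve 0)
      have h4 : HasDerivAt (fun t : ℝ => v + (2 * t) • b) ((2 : ℝ) • b) 0 := by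
        have h5 : HasDerivAt (fun t : ℝ => 2 * t) (2 * 1) (0 : ℝ) :=
          (hasDerivAt_id (0 : ℝ)).const_mul 2
        rw [mul_one] at h5
        exact (h5.smul_const b).const_add v
      have h5 := h3.clm_apply h4
      simpa using h5
    have h3 : (fun t : ℝ => DD G 1 (a, v, t)) =
        fun t : ℝ => fderiv ℝ Ψ (a + t • v + t ^ 2 • b) (v + (2 * t) • b) := funext hD1
    rw [h3] at h1
    exact h1.unique h2
  refine ⟨fun j => ((1 : ℝ) / (j ! : ℝ)) • DD G j (a, v, 0), ?_, ?_, ?_, ?_, ?_⟩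
  · simp [DD, hG]
  · simp [hD1]
  · simp only [hD2]
    have h1 : ((1 : ℝ) / (2 ! : ℝ)) • ((fderiv ℝ (fderiv ℝ Ψ) a v) v + fderiv ℝ Ψ a ((2 : ℝ) • b)) -
        fderiv ℝ Ψ a b = ((1 : ℝ) / 2) • (fderiv ℝ (fderiv ℝ Ψ) a v) v := by
      rw [map_smul, smul_add, smul_smul]
      norm_num [Nat.factorial]
    rw [h1, norm_smul]
    have h2 := hC2 a (by simpa using ha)
    have h3 : ‖(fderiv ℝ (fderiv ℝ Ψ) a v) v‖ ≤ C2 * ‖v‖ * ‖v‖ := by
      refine (ContinuousLinearMap.le_opNorm _ _).trans ?_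
      apply mul_le_mul_of_nonneg_right _ (norm_nonneg _)
      exact (ContinuousLinearMap.le_opNorm _ _).trans
        (mul_le_mul_of_nonneg_right h2 (norm_nonneg _))
    have h4 : C2 ≤ Cs := by
      have h5 : 0 ≤ ∑ j ∈ Finset.range 8, |Cf j| := Finset.sum_nonneg fun i _ => abs_nonneg _
      linarith [le_abs_self C2]
    have h5 : 0 ≤ C2 := (norm_nonneg _).trans h2
    have h6 : C2 * ‖v‖ * ‖v‖ ≤ Cs * ‖v‖ := by
      have h7 : C2 * ‖v‖ ≤ Cs := by nlinarith [norm_nonneg v]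
      exact mul_le_mul_of_nonneg_right h7 (norm_nonneg _)
    have h8 : ‖(1 : ℝ) / 2‖ = 1 / 2 := by norm_num
    rw [h8]
    have := norm_nonneg ((fderiv ℝ (fderiv ℝ Ψ) a v) v)
    linarith
  · intro j hj
    simp only
    rw [norm_smul]
    have h1 := hCf j hj.le _ (hmem 0 (by simp))
    have h2 : ‖(1 : ℝ) / (j ! : ℝ)‖ ≤ 1 := by
      rw [Real.norm_eq_abs, abs_of_pos (by positivity), div_le_one (by positivity)]
      exact_mod_cast Nat.one_le_iff_ne_zero.2 (Nat.factorial_ne_zero j)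
    calc ‖(1 : ℝ) / (j ! : ℝ)‖ * ‖DD G j (a, v, 0)‖ ≤ 1 * Cs :=
          mul_le_mul h2 (h1.trans (hCfs j hj.le)) (norm_nonneg _) zero_le_one
      _ = Cs := one_mul _
  · intro t ht
    have h1 := taylor_bound (C := Cs) (τ := 1) 7 (fun j t => DD G j (a, v, t)) hder
      (fun t ht => (hCf 7 (le_refl _) _ (hmem t ht)).trans (hCfs 7 (le_refl _))) t ht
    have h2 : ∑ j ∈ Finset.range 7, (t ^ j / (j ! : ℝ)) • DD G j (a, v, 0) =
        ∑ j ∈ Finset.range 7, t ^ j • ((1 : ℝ) / (j ! : ℝ)) • DD G j (a, v, 0) := by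
      refine Finset.sum_congr rfl fun j _ => ?_
      rw [smul_smul, mul_one_div]
    rw [h2] at h1
    exact h1

/-- Lipschitz bound for the derivative and second order Taylor bound. -/
theorem second_order {Ψ : T → F} (hΨ : ContDiff ℝ 9 Ψ) : ∃ C : ℝ, 1 ≤ C ∧
    ∀ x y : T, ‖x‖ ≤ 1 → ‖y‖ ≤ 1 → ‖fderiv ℝ Ψ y - fderiv ℝ Ψ x‖ ≤ C * ‖y - x‖ ∧
      ‖Ψ y - Ψ x - fderiv ℝ Ψ x (y - x)‖ ≤ C * ‖y - x‖ ^ 2 := by
  have hproper : ProperSpace T := FiniteDimensional.proper ℝ T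
  have hΨ2 : ContDiff ℝ 1 (fderiv ℝ Ψ) := hΨ.fderiv_right (by norm_num)
  have hΨ3 : Continuous (fderiv ℝ (fderiv ℝ Ψ)) := hΨ2.continuous_fderiv (by norm_num)
  have hΨd : Differentiable ℝ Ψ := hΨ.differentiable (by norm_num)
  obtain ⟨C2, hC2⟩ := (isCompact_closedBall (0 : T) 1).exists_bound_of_continuousOn
    (f := fderiv ℝ (fderiv ℝ Ψ)) hΨ3.continuousOn
  have hlip : ∀ x y : T, ‖x‖ ≤ 1 → ‖y‖ ≤ 1 →
      ‖fderiv ℝ Ψ y - fderiv ℝ Ψ x‖ ≤ max C2 1 * ‖y - x‖ := by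
    intro x y hx hy
    apply Convex.norm_image_sub_le_of_norm_fderiv_le (𝕜 := ℝ) (s := closedBall (0 : T) 1)
    · intro z _
      exact (hΨ2.differentiable (by norm_num)) z
    · intro z hz
      exact (hC2 z hz).trans (le_max_left _ _)
    · exact convex_closedBall _ _
    · simpa using hx
    · simpa using hy
  refine ⟨max C2 1, le_max_right _ _, fun x y hx hy => ⟨hlip x y hx hy, ?_⟩⟩
  have hbound : ∀ z ∈ closedBall (0 : T) 1 ∩ closedBall x ‖y - x‖,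
      ‖fderiv ℝ Ψ z - fderiv ℝ Ψ x‖ ≤ max C2 1 * ‖y - x‖ := by
    intro z hz
    have h2 : ‖z‖ ≤ 1 := by simpa using hz.1
    have h3 : ‖z - x‖ ≤ ‖y - x‖ := by rw [← dist_eq_norm]; exact hz.2
    exact (hlip x z hx h2).trans (mul_le_mul_of_nonneg_left h3 (by positivity))
  have h1 := Convex.norm_image_sub_le_of_norm_fderiv_le' (fun z _ => hΨd z) hbound
    ((convex_closedBall _ _).inter (convex_closedBall _ _))
    (show x ∈ closedBall (0 : T) 1 ∩ closedBall x ‖y - x‖ from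
      ⟨by simpa using hx, mem_closedBall_self (norm_nonneg _)⟩)
    (show y ∈ closedBall (0 : T) 1 ∩ closedBall x ‖y - x‖ from
      ⟨by simpa using hy, by rw [mem_closedBall, dist_eq_norm]⟩)
  calc _ ≤ max C2 1 * ‖y - x‖ * ‖y - x‖ := h1
    _ = _ := by ring

end Pool.Agent.Helper32.Siciak
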