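import Mathlib
import Pool.Agent.Helper32.Siciak.Boot

open Set Metric Filter Topology InnerProductSpace
open scoped ContDiff

namespace Pool.Agent.Helper32.Siciak

/-- Minimum principle for harmonic functions in a disc. -/
theorem harmonic_nonneg {c : ℂ} {r : ℝ} (hr : 0 < r) {h : ℂ → ℝ} (hh : HarmonicContOnCl h (ball c r))
    (h0 : ∀ ζ ∈ sphere c r, 0 ≤ h ζ) : ∀ ζ ∈ closedBall c r, 0 ≤ h ζ := by
  intro ζ hζ
  rcases eq_or_lt_of_le (mem_closedBall.1 hζ) with h1 | h1
  · exact h0 ζ h1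
  · have h2 := hh.circleAverage_poissonKernel_smul (w := ζ) h1
    rw [← h2]
    apply Real.circleAverage_nonneg_of_nonneg
    intro x hx
    rw [abs_of_pos hr] at hx
    rw [Pi.smul_apply', smul_eq_mul]
    apply mul_nonneg _ (h0 x hx)
    rw [poissonKernel_def]
    apply div_nonneg _ (by positivity)
    rw [mem_sphere, dist_eq_norm] at hx
    rw [dist_eq_norm] at h1
    rw [hx]
    have := pow_le_pow_left₀ (norm_nonneg (ζ - c)) h1.le 2
    linarith

variable {E : Type*} [NormedAddCommGroup E] [InnerProductSpace ℂ E]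

theorem inLelong_zero : InLelong (fun _ : E => (0 : EReal)) := by
  refine ⟨⟨upperSemicontinuous_const, fun a b => ⟨upperSemicontinuous_const,
    fun _ => EReal.zero_lt_top, ?_⟩⟩, 0, fun z => ?_⟩
  · intro c r hr h hh hcirc ζ hζ
    have h1 : ∀ ζ ∈ sphere c r, 0 ≤ h ζ := fun ζ hζ => by
      have : (0 : EReal) ≤ ((h ζ : ℝ) : EReal) := hcirc ζ hζ
      exact_mod_cast this
    change (0 : EReal) ≤ ((h ζ : ℝ) : EReal)
    exact_mod_cast harmonic_nonneg hr hh h1 ζ hζ
  · have : 0 ≤ Real.log (1 + ‖z‖) + 0 := by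
      rw [add_zero]
      exact Real.log_nonneg (by linarith [norm_nonneg z])
    change (0 : EReal) ≤ ((Real.log (1 + ‖z‖) + 0 : ℝ) : EReal)
    exact_mod_cast this

theorem inLelong_translate {u : E → EReal} (hu : InLelong u) (w : E) (c : ℝ) :
    InLelong (fun z => u (z + w) + ((-c : ℝ) : EReal)) := by
  obtain ⟨⟨husc, hsub⟩, C, hC⟩ := hu
  have hcont : Continuous fun z : E => z + w := by fun_prop
  have husc1 : UpperSemicontinuous fun z => u (z + w) := fun z y hy =>
    (hcont.tendsto z).eventually (husc _ y hy)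
  have husc2 : UpperSemicontinuous fun z => u (z + w) + ((-c : ℝ) : EReal) :=
    husc1.add' upperSemicontinuous_const fun z =>
      EReal.continuousAt_add (Or.inr (EReal.coe_ne_bot _)) (Or.inr (EReal.coe_ne_top _))
  refine ⟨⟨husc2, fun a b => ⟨?_, fun ζ => ?_, ?_⟩⟩, C + Real.log (1 + ‖w‖) - c, fun z => ?_⟩
  · have hcont2 : Continuous fun ζ : ℂ => a + ζ • b := by fun_prop
    exact fun ζ y hy => (hcont2.tendsto ζ).eventually (husc2 _ y hy)
  · have h1 : u (a + ζ • b + w) < ⊤ := by
      have := (hsub (a + ζ • b + w) 0).2.1 0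
      simpa using this
    exact EReal.add_lt_top h1.ne (EReal.coe_ne_top _)
  · intro c' r hr h hh hcirc ζ hζ
    have h1 := (hsub (a + w) b).2.2 c' r hr (fun ζ => h ζ + c) (hh.add_const c) ?_ ζ hζ
    · have e1 : a + ζ • b + w = a + w + ζ • b := by abel
      simp only at h1 ⊢
      rw [e1]
      apply EReal_add_le
      rwa [sub_neg_eq_add]
    · intro ζ hζ
      have h2 := hcirc ζ hζ
      have e1 : a + ζ • b + w = a + w + ζ • b := by abel
      simp only at h2 ⊢
      rw [e1] at h2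
      have h3 := EReal_le_sub h2
      rwa [sub_neg_eq_add] at h3
  · apply EReal_add_le
    refine (hC _).trans ?_
    rw [EReal.coe_le_coe_iff]
    have h1 : Real.log (1 + ‖z + w‖) ≤ Real.log (1 + ‖z‖) + Real.log (1 + ‖w‖) := by
      rw [← Real.log_mul (by positivity) (by positivity)]
      apply Real.log_le_log (by positivity)
      nlinarith [norm_add_le z w, norm_nonneg z, norm_nonneg w,
        mul_nonneg (norm_nonneg z) (norm_nonneg w)]
    linarith

variable [FiniteDimensional ℂ E]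

theorem green_nonneg (K : Set E) (z : E) : 0 ≤ green K z := by
  unfold green
  exact le_iSup₂ (f := fun u (_ : u ∈ {u : E → EReal | InLelong u ∧ ∀ w ∈ K, u w ≤ 0}) => u z)
    (fun _ => (0 : EReal)) ⟨inLelong_zero, fun w _ => le_refl _⟩

theorem le_green {K : Set E} {u : E → EReal} (hu : InLelong u) (h0 : ∀ w ∈ K, u w ≤ 0) (z : E) :
    u z ≤ green K z := by
  unfold green
  exact le_iSup₂ (f := fun u (_ : u ∈ {u : E → EReal | InLelong u ∧ ∀ w ∈ K, u w ≤ 0}) => u z)
    u ⟨hu, h0⟩

/-- The geometric property implies the Hölder continuity of the Green function. -/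
theorem isHolderHalf {K : Set E} (hK : IsCompact K) (hne : K.Nonempty) {C h₀ τ₀ : ℝ} (hC : 1 ≤ C)
    (hh₀ : 0 < h₀) (hτ₀ : 0 < τ₀) (hG : DiscProp K C h₀ τ₀) : IsHolderHalf K := by
  obtain ⟨M, hM0, hM⟩ := uniform_bound hK hne hC hh₀ hτ₀ hG
  obtain ⟨A, d, hA, hd, hAd⟩ := hcp hK hne hC hh₀ hτ₀ hG
  obtain ⟨p, hp⟩ := hne
  -- finiteness
  have hfin : ∀ z, green K z ≤ ((M + Real.log (max ‖z - p‖ 1 / 1) : ℝ) : EReal) := by
    intro z
    unfold green
    refine iSup₂_le fun u hu => ?_
    refine walsh hu.1 one_pos (fun w hw => ?_) (le_max_right _ _) (le_max_left _ _)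
    apply hM u hu.1 hu.2
    rw [mem_closedBall] at hw
    exact (infDist_le_dist_of_mem hp).trans hw
  have hlt : ∀ z, green K z ≠ ⊤ := fun z => ((hfin z).trans_lt (EReal.coe_lt_top _)).ne
  have hbot : ∀ z, green K z ≠ ⊥ := fun z => (EReal.bot_lt_zero.trans_le (green_nonneg K z)).ne'
  set v : E → ℝ := fun z => (green K z).toReal with hv
  have hvz : ∀ z, green K z = (v z : EReal) := fun z => (EReal.coe_toReal (hlt z) (hbot z)).symm
  refine ⟨v, hvz, ?_⟩
  -- translation
  have htr : ∀ z w : E, ‖w‖ ≤ d → v (z + w) ≤ v z + A * √‖w‖ := by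
    intro z w hw
    have h1 : green K (z + w) ≤ ((v z + A * √‖w‖ : ℝ) : EReal) := by
      conv_lhs => unfold green
      refine iSup₂_le fun u hu => ?_
      have h2 := le_green (K := K) (inLelong_translate hu.1 w (A * √‖w‖)) (fun q hq => ?_) z
      · rw [hvz z] at h2
        have h3 := EReal_le_sub h2
        rwa [sub_neg_eq_add] at h3
      · have h3 : infDist (q + w) K ≤ ‖w‖ := by
          refine (infDist_le_dist_of_mem hq).trans ?_
          rw [dist_eq_norm, add_sub_cancel_left]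
        have h4 := hAd u hu.1 hu.2 (q + w) (h3.trans hw)
        have h5 : (0 : EReal) = ((0 : ℝ) : EReal) := rfl
        rw [h5]
        apply EReal_add_le
        refine h4.trans ?_
        rw [EReal.coe_le_coe_iff, zero_sub, neg_neg]
        exact mul_le_mul_of_nonneg_left (Real.sqrt_le_sqrt h3) hA.le
    rw [hvz, EReal.coe_le_coe_iff] at h1
    exact h1
  have habs : ∀ z w : E, ‖w‖ ≤ d → |v (z + w) - v z| ≤ A * √‖w‖ := by
    intro z w hw
    rw [abs_le]
    constructor
    · have := htr (z + w) (-w) (by rwa [norm_neg])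
      rw [add_neg_cancel_right, norm_neg] at this
      linarith
    · linarith [htr z w hw]
  have hchain : ∀ (n : ℕ) (z w : E), ‖w‖ ≤ d → |v (z + (n : ℝ) • w) - v z| ≤ n * (A * √‖w‖) := by
    intro n z w hw
    induction n with
    | zero => simp
    | succ n ih =>
      have h1 := habs (z + (n : ℝ) • w) w hw
      have e1 : z + (n : ℝ) • w + w = z + ((n + 1 : ℕ) : ℝ) • w := by
        push_cast
        rw [add_smul, one_smul, add_assoc]
      rw [e1] at h1
      have h2 := abs_sub_le (v (z + ((n + 1 : ℕ) : ℝ) • w)) (v (z + (n : ℝ) • w)) (v z)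
      push_cast at *
      linarith
  obtain ⟨N, hN⟩ := exists_nat_gt (1 / d)
  have hN0 : (0 : ℝ) < N := lt_trans (by positivity) hN
  refine ⟨N * A, by positivity, fun z w hzw => ?_⟩
  have h1 : ‖(1 / (N : ℝ)) • (z - w)‖ ≤ d := by
    rw [norm_smul, Real.norm_eq_abs, abs_of_pos (by positivity)]
    have h2 : 1 / (N : ℝ) ≤ d := by
      rw [div_le_iff₀ hN0]
      rw [div_lt_iff₀ hd] at hN
      linarith
    calc 1 / (N : ℝ) * ‖z - w‖ ≤ 1 / (N : ℝ) * 1 := mul_le_mul_of_nonneg_left hzw (by positivity)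
      _ ≤ d := by rw [mul_one]; exact h2
  have h3 := hchain N w _ h1
  rw [smul_smul, mul_one_div_cancel hN0.ne', one_smul, add_sub_cancel] at h3
  refine h3.trans ?_
  have h4 : √‖(1 / (N : ℝ)) • (z - w)‖ ≤ ‖z - w‖ ^ (1 / 2 : ℝ) := by
    rw [← Real.sqrt_eq_rpow]
    apply Real.sqrt_le_sqrt
    rw [norm_smul, Real.norm_eq_abs, abs_of_pos (by positivity)]
    have h5 : 1 / (N : ℝ) ≤ 1 := by
      rw [div_le_one hN0]
      have : (1 : ℕ) ≤ N := Nat.one_le_iff_ne_zero.2 (by
        intro h; rw [h] at hN0; norm_num at hN0)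
      exact_mod_cast this
    nlinarith [norm_nonneg (z - w)]
  calc (N : ℝ) * (A * √‖(1 / (N : ℝ)) • (z - w)‖) ≤ N * (A * ‖z - w‖ ^ (1 / 2 : ℝ)) :=
        mul_le_mul_of_nonneg_left (mul_le_mul_of_nonneg_left h4 hA.le) hN0.le
    _ = _ := by ring

end Pool.Agent.Helper32.Siciak
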