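import Mathlib
import Pool.Agent.Helper32.Siciak.Curve
import Pool.Agent.Helper32.Siciak.Holder

open Set Metric Filter Topology
open scoped ContDiff

namespace Pool.Agent.Helper32.Siciak

variable {E : Type*} [NormedAddCommGroup E] [InnerProductSpace ℂ E] [FiniteDimensional ℂ E]
  {T : Type*} [NormedAddCommGroup T] [NormedSpace ℝ T] [FiniteDimensional ℝ T]

/-- The disc property based at one point `q`. -/
def GoodAt (K : Set E) (C h₀ τ₀ : ℝ) (q : E) : Prop :=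
  ∀ h : ℝ, 0 < h → h ≤ h₀ → ∀ z : E, ‖z - q‖ ≤ h ^ 2 → ∃ f : ℂ → E, Differentiable ℂ f ∧
    f (h * Complex.I) = z ∧ (∀ ζ : ℂ, ‖ζ‖ ≤ τ₀ → infDist (f ζ) K ≤ 1) ∧
    ∀ t : ℝ, |t| ≤ τ₀ → infDist (f t) K ≤ C * (|t| ^ 7 + h ^ 3)

/-- Solving `X ↦ DΨ(x) X + i DΨ(x) Y = e` uniformly in `x` near `0`. -/
theorem solve {Ψ : T → E} (hΨ : ContDiff ℝ 9 Ψ)
    (hgen : ∀ e : E, ∃ X Y : T, fderiv ℝ Ψ 0 X + Complex.I • fderiv ℝ Ψ 0 Y = e) :
    ∃ ρ C₁ : ℝ, 0 < ρ ∧ ρ ≤ 1 ∧ 1 ≤ C₁ ∧ ∀ x : T, ‖x‖ ≤ ρ → ∀ e : E, ∃ X Y : T,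
      ‖X‖ ≤ C₁ * ‖e‖ ∧ ‖Y‖ ≤ C₁ * ‖e‖ ∧ fderiv ℝ Ψ x X + Complex.I • fderiv ℝ Ψ x Y = e := by
  have hfinE : FiniteDimensional ℝ E := FiniteDimensional.complexToReal E
  obtain ⟨C, hC1, hC⟩ := second_order hΨ
  -- the map `Λ x`
  let mulI : E →L[ℝ] E := ((Complex.I • ContinuousLinearMap.id ℂ E).restrictScalars ℝ)
  have hmulI : ∀ e : E, mulI e = Complex.I • e := fun e => rfl
  let Λ : T → (T × T) →L[ℝ] E := fun x =>
    (fderiv ℝ Ψ x).comp (ContinuousLinearMap.fst ℝ T T) +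
      (mulI.comp ((fderiv ℝ Ψ x).comp (ContinuousLinearMap.snd ℝ T T)))
  have hΛ : ∀ x X Y, Λ x (X, Y) = fderiv ℝ Ψ x X + Complex.I • fderiv ℝ Ψ x Y := fun x X Y => rfl
  have hsurj : Function.Surjective (Λ 0 : (T × T) →ₗ[ℝ] E) := by
    intro e
    obtain ⟨X, Y, h⟩ := hgen e
    exact ⟨(X, Y), h⟩
  obtain ⟨S₀, hS₀⟩ := (Λ 0 : (T × T) →ₗ[ℝ] E).exists_rightInverse_of_surjective
    (LinearMap.range_eq_top.2 hsurj)
  set S : E →L[ℝ] (T × T) := LinearMap.toContinuousLinearMap S₀ with hS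
  have hΛS : ∀ e, Λ 0 (S e) = e := fun e => by
    have := LinearMap.congr_fun hS₀ e
    exact this
  set σ : ℝ := ‖S‖ + 1 with hσ
  have hσ1 : 1 ≤ σ := by rw [hσ]; linarith [norm_nonneg S]
  have hSn : ∀ e, ‖(S e).1‖ ≤ σ * ‖e‖ ∧ ‖(S e).2‖ ≤ σ * ‖e‖ := by
    intro e
    have h1 : ‖S e‖ ≤ σ * ‖e‖ := (S.le_opNorm e).trans
      (mul_le_mul_of_nonneg_right (by rw [hσ]; linarith) (norm_nonneg _))
    exact ⟨(norm_fst_le _).trans h1, (norm_snd_le _).trans h1⟩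
  refine ⟨1 / (4 * C * σ), 2 * σ, by positivity, ?_, by linarith, ?_⟩
  · rw [div_le_one (by positivity)]; nlinarith
  intro x hx e
  have hx1 : ‖x‖ ≤ 1 := by
    refine hx.trans ?_
    rw [div_le_one (by positivity)]; nlinarith
  have hnear : ∀ e', ‖Λ x (S e') - e'‖ ≤ 1 / 2 * ‖e'‖ := by
    intro e'
    have h1 : Λ x (S e') - e' = (fderiv ℝ Ψ x - fderiv ℝ Ψ 0) (S e').1 +
        Complex.I • (fderiv ℝ Ψ x - fderiv ℝ Ψ 0) (S e').2 := by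
      have h2 : Λ x (S e') - e' = Λ x (S e') - Λ 0 (S e') := by rw [hΛS]
      have h3 : Λ x (S e') = fderiv ℝ Ψ x (S e').1 + Complex.I • fderiv ℝ Ψ x (S e').2 := rfl
      have h4 : Λ 0 (S e') = fderiv ℝ Ψ 0 (S e').1 + Complex.I • fderiv ℝ Ψ 0 (S e').2 := rfl
      rw [h2, h3, h4]
      simp only [ContinuousLinearMap.sub_apply, smul_sub]
      abel
    have h5 := (hC 0 x (by simp) hx1).1
    rw [sub_zero] at h5
    have h6 : ∀ w : T, ‖(fderiv ℝ Ψ x - fderiv ℝ Ψ 0) w‖ ≤ C * ‖x‖ * ‖w‖ := fun w =>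
      (ContinuousLinearMap.le_opNorm _ _).trans (mul_le_mul_of_nonneg_right h5 (norm_nonneg _))
    have h7 : C * ‖x‖ * σ ≤ 1 / 4 := by
      have : C * ‖x‖ * σ ≤ C * (1 / (4 * C * σ)) * σ := by gcongr
      refine this.trans (le_of_eq ?_)
      field_simp
    rw [h1]
    refine (norm_add_le _ _).trans ?_
    rw [norm_smul, Complex.norm_I, one_mul]
    have h8 := h6 (S e').1
    have h9 := h6 (S e').2
    have h10 := (hSn e').1
    have h11 := (hSn e').2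
    have hCx : 0 ≤ C * ‖x‖ := by positivity
    have h12 : C * ‖x‖ * ‖(S e').1‖ ≤ 1 / 4 * ‖e'‖ := by
      calc C * ‖x‖ * ‖(S e').1‖ ≤ C * ‖x‖ * (σ * ‖e'‖) := mul_le_mul_of_nonneg_left h10 hCx
        _ = (C * ‖x‖ * σ) * ‖e'‖ := by ring
        _ ≤ 1 / 4 * ‖e'‖ := mul_le_mul_of_nonneg_right h7 (norm_nonneg _)
    have h13 : C * ‖x‖ * ‖(S e').2‖ ≤ 1 / 4 * ‖e'‖ := by
      calc C * ‖x‖ * ‖(S e').2‖ ≤ C * ‖x‖ * (σ * ‖e'‖) := mul_le_mul_of_nonneg_left h11 hCx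
        _ = (C * ‖x‖ * σ) * ‖e'‖ := by ring
        _ ≤ 1 / 4 * ‖e'‖ := mul_le_mul_of_nonneg_right h7 (norm_nonneg _)
    linarith
  -- surjectivity
  have hinj : Function.Injective ((Λ x).comp S : E →ₗ[ℝ] E) := by
    rw [injective_iff_map_eq_zero]
    intro e' he'
    have h1 := hnear e'
    have h2 : Λ x (S e') = 0 := he'
    rw [h2, zero_sub, norm_neg] at h1
    have : ‖e'‖ ≤ 0 := by linarith
    exact norm_le_zero_iff.1 this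
  obtain ⟨e', he'⟩ := LinearMap.injective_iff_surjective.1 hinj e
  have he'' : Λ x (S e') = e := he'
  have hen : ‖e'‖ ≤ 2 * ‖e‖ := by
    have h1 := hnear e'
    rw [he''] at h1
    have h2 : ‖e'‖ ≤ ‖e - e'‖ + ‖e‖ := by
      have := norm_sub_norm_le e' e
      rw [norm_sub_rev] at this
      linarith
    linarith
  refine ⟨(S e').1, (S e').2, ?_, ?_, he''⟩
  · exact (hSn e').1.trans (by nlinarith [norm_nonneg e])
  · exact (hSn e').2.trans (by nlinarith [norm_nonneg e])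

theorem sum7 {F : Type*} [AddCommGroup F] (g : ℕ → F) :
    ∑ j ∈ Finset.range 7, g j = g 0 + g 1 + g 2 + (g 3 + g 4 + g 5 + g 6) := by
  simp only [Finset.sum_range_succ, Finset.sum_range_zero]
  abel

/-- Construction of the discs near a point of a half space. -/
theorem disc_construct {Ψ : T → E} (hΨ : ContDiff ℝ 9 Ψ)
    (hgen : ∀ e : E, ∃ X Y : T, fderiv ℝ Ψ 0 X + Complex.I • fderiv ℝ Ψ 0 Y = e)
    {ℓ : T →L[ℝ] ℝ} {w₁ : T} (hw : ℓ w₁ = 1) {ρ₀ : ℝ} (hρ₀ : 0 < ρ₀) {K : Set E}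
    (hside : ∀ x : T, ‖x‖ < ρ₀ → ℓ x ≤ 0 → Ψ x ∈ K) :
    ∃ ρ C h₀ τ₀ : ℝ, 0 < ρ ∧ 1 ≤ C ∧ 0 < h₀ ∧ 0 < τ₀ ∧ ∀ x₀ : T, ‖x₀‖ ≤ ρ → ℓ x₀ ≤ 0 →
      GoodAt K C h₀ τ₀ (Ψ x₀) := by
  obtain ⟨ρ₁, C₁, hρ₁, hρ₁1, hC₁, hsolve⟩ := solve hΨ hgen
  obtain ⟨C₂, hC₂, hsec⟩ := second_order hΨ
  set A : ℝ := 2 * ‖ℓ‖ * C₁ + 1 with hA
  have hA0 : 0 < A := by positivity
  set b : T := (-A) • w₁ with hb
  have hℓb : ℓ b = -A := by rw [hb, map_smul, hw]; simp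
  obtain ⟨Cs, hCs, hexp⟩ := curve_expansion hΨ b
  set C₃ : ℝ := C₁ + ‖b‖ with hC₃
  have hC₃1 : 1 ≤ C₃ := by rw [hC₃]; linarith [norm_nonneg b]
  -- the final constant
  set C₄ : ℝ := C₂ * C₃ ^ 2 + C₂ * C₃ * ‖b‖ + C₂ * C₃ * C₁ + Cs * C₁ + 4 * Cs with hC₄
  have hC₄0 : 0 ≤ C₄ := by positivity
  set C : ℝ := Cs + C₄ with hCdef
  have hC1 : 1 ≤ C := by linarith
  set ρ : ℝ := min ρ₁ (ρ₀ / 4) ⊓ (1 / 2) with hρ
  have hρpos : 0 < ρ := by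
    rw [hρ]; exact lt_min (lt_min hρ₁ (by positivity)) (by norm_num)
  set τ₀ : ℝ := min (1 / (12 * Cs)) (min (ρ₀ / (8 * C₃)) 1) with hτ₀
  have hτ₀pos : 0 < τ₀ := by
    rw [hτ₀]; exact lt_min (by positivity) (lt_min (by positivity) one_pos)
  set h₀ : ℝ := min (1 / (2 * C)) (min (ρ₀ / (8 * C₃)) (1 / (2 * C₃))) with hh₀
  have hh₀pos : 0 < h₀ := by
    rw [hh₀]; exact lt_min (by positivity) (lt_min (by positivity) (by positivity))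
  refine ⟨ρ, C, h₀, τ₀, hρpos, hC1, hh₀pos, hτ₀pos, ?_⟩
  intro x₀ hx₀ hℓx₀ h hh hhh z hz
  -- collect the smallness conditions
  have hx₀1 : ‖x₀‖ ≤ ρ₁ := hx₀.trans ((min_le_left _ _).trans (min_le_left _ _))
  have hx₀2 : ‖x₀‖ ≤ ρ₀ / 4 := hx₀.trans ((min_le_left _ _).trans (min_le_right _ _))
  have hx₀3 : ‖x₀‖ ≤ 1 / 2 := hx₀.trans (min_le_right _ _)
  have hh1 : C * h ≤ 1 / 2 := by
    have h1 : h ≤ 1 / (2 * C) := hhh.trans (min_le_left _ _)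
    rw [le_div_iff₀ (by positivity)] at h1
    linarith
  have hh2 : C₃ * h ≤ ρ₀ / 8 := by
    have h1 : h ≤ ρ₀ / (8 * C₃) := hhh.trans ((min_le_right _ _).trans (min_le_left _ _))
    rw [le_div_iff₀ (by positivity)] at h1
    linarith
  have hh3 : C₃ * h ≤ 1 / 2 := by
    have h1 : h ≤ 1 / (2 * C₃) := hhh.trans ((min_le_right _ _).trans (min_le_right _ _))
    rw [le_div_iff₀ (by positivity)] at h1
    linarith
  have hh4 : h ≤ 1 := by nlinarith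
  have hτ1 : 12 * Cs * τ₀ ≤ 1 := by
    have h1 : τ₀ ≤ 1 / (12 * Cs) := min_le_left _ _
    rw [le_div_iff₀ (by positivity)] at h1
    linarith
  have hτ2 : C₃ * τ₀ ≤ ρ₀ / 8 := by
    have h1 : τ₀ ≤ ρ₀ / (8 * C₃) := (min_le_right _ _).trans (min_le_left _ _)
    rw [le_div_iff₀ (by positivity)] at h1
    linarith
  have hτ3 : τ₀ ≤ 1 := (min_le_right _ _).trans (min_le_right _ _)
  -- the solution of the linear equation
  obtain ⟨X, Y, hX, hY, hXY⟩ := hsolve x₀ hx₀1 (z - Ψ x₀)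
  have hXn : ‖X‖ ≤ C₁ * h ^ 2 := hX.trans (mul_le_mul_of_nonneg_left hz (by linarith))
  have hYn : ‖Y‖ ≤ C₁ * h ^ 2 := hY.trans (mul_le_mul_of_nonneg_left hz (by linarith))
  set a : T := x₀ + X + h ^ 2 • b with ha
  set v : T := (1 / h) • Y with hv
  have hhv : h • v = Y := by rw [hv, smul_smul, mul_one_div_cancel hh.ne', one_smul]
  have hvn : ‖v‖ ≤ C₁ * h := by
    rw [hv, norm_smul, Real.norm_eq_abs, abs_of_pos (by positivity), one_div, inv_mul_le_iff₀ hh]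
    calc ‖Y‖ ≤ C₁ * h ^ 2 := hYn
      _ = h * (C₁ * h) := by ring
  have hax₀ : a - x₀ = X + h ^ 2 • b := by rw [ha]; abel
  have haxn : ‖a - x₀‖ ≤ C₃ * h ^ 2 := by
    rw [hax₀]
    refine (norm_add_le _ _).trans ?_
    rw [norm_smul, Real.norm_eq_abs, abs_of_pos (by positivity), hC₃]
    nlinarith
  have hsq : h ^ 2 ≤ h := by nlinarith
  have haxn1 : ‖a - x₀‖ ≤ C₃ * h := haxn.trans (mul_le_mul_of_nonneg_left hsq (by linarith))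
  have han : ‖a‖ ≤ 1 := by
    have h1 : ‖a‖ ≤ ‖x₀‖ + ‖a - x₀‖ := by
      calc ‖a‖ = ‖x₀ + (a - x₀)‖ := by congr 1; abel
        _ ≤ _ := norm_add_le _ _
    linarith
  have hvn1 : ‖v‖ ≤ 1 := by
    have h1 : C₁ * h ≤ C₃ * h := mul_le_mul_of_nonneg_right
      (by rw [hC₃]; linarith [norm_nonneg b]) hh.le
    linarith
  obtain ⟨c, hc0, hc1, hc2, hcb, hct⟩ := hexp a v han hvn1
  -- the sum at `h i`
  set Sh : E := ∑ j ∈ Finset.range 7, ((h : ℂ) * Complex.I) ^ j • c j with hSh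
  have hrest : ∀ w : ℂ, ‖w‖ ≤ 1 → ∀ j < 7, ‖w ^ j • c j‖ ≤ Cs * ‖w‖ ^ j := by
    intro w _ j hj
    rw [norm_smul, norm_pow, mul_comm]
    exact mul_le_mul_of_nonneg_right (hcb j hj) (by positivity)
  have hzS : ‖z - Sh‖ ≤ C₄ * h ^ 3 := by
    have hIh : ‖(h : ℂ) * Complex.I‖ = h := by
      rw [norm_mul, Complex.norm_I, mul_one, Complex.norm_real, Real.norm_eq_abs, abs_of_pos hh]
    have e1 : ((h : ℂ) * Complex.I) ^ 0 • c 0 = Ψ a := by rw [pow_zero, one_smul, hc0]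
    have e2 : ((h : ℂ) * Complex.I) ^ 1 • c 1 = Complex.I • fderiv ℝ Ψ a Y := by
      have e2a : fderiv ℝ Ψ a Y = h • fderiv ℝ Ψ a v := by
        conv_lhs => rw [← hhv]
        exact (fderiv ℝ Ψ a).map_smul h v
      rw [pow_one, hc1, mul_comm ((h : ℝ) : ℂ) Complex.I, mul_smul, Complex.coe_smul, e2a]
    have e3 : ((h : ℂ) * Complex.I) ^ 2 • c 2 = -(h ^ 2 • c 2) := by
      have : ((h : ℂ) * Complex.I) ^ 2 = -((h ^ 2 : ℝ) : ℂ) := by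
        rw [mul_pow, Complex.I_sq]; push_cast; ring
      rw [this, neg_smul, Complex.coe_smul]
    set rest : E := ((h : ℂ) * Complex.I) ^ 3 • c 3 + ((h : ℂ) * Complex.I) ^ 4 • c 4 +
      ((h : ℂ) * Complex.I) ^ 5 • c 5 + ((h : ℂ) * Complex.I) ^ 6 • c 6 with hrestdef
    have hrestn : ‖rest‖ ≤ 4 * Cs * h ^ 3 := by
      have hp : ∀ j, 3 ≤ j → j < 7 → ‖((h : ℂ) * Complex.I) ^ j • c j‖ ≤ Cs * h ^ 3 := by
        intro j hj3 hj7
        have h1 := hrest ((h : ℂ) * Complex.I) (by rw [hIh]; exact hh4) j hj7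
        rw [hIh] at h1
        refine h1.trans (mul_le_mul_of_nonneg_left ?_ (by linarith))
        exact pow_le_pow_of_le_one hh.le hh4 hj3
      rw [hrestdef]
      have h3 := hp 3 (by norm_num) (by norm_num)
      have h4 := hp 4 (by norm_num) (by norm_num)
      have h5 := hp 5 (by norm_num) (by norm_num)
      have h6 := hp 6 (by norm_num) (by norm_num)
      refine (norm_add_le _ _).trans ?_
      have h7 := norm_add_le (((h : ℂ) * Complex.I) ^ 3 • c 3 + ((h : ℂ) * Complex.I) ^ 4 • c 4)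
        (((h : ℂ) * Complex.I) ^ 5 • c 5)
      have h8 := norm_add_le (((h : ℂ) * Complex.I) ^ 3 • c 3) (((h : ℂ) * Complex.I) ^ 4 • c 4)
      linarith
    have hSh2 : Sh = Ψ a + Complex.I • fderiv ℝ Ψ a Y + -(h ^ 2 • c 2) + rest := by
      rw [hSh, sum7, e1, e2, e3]
    have hz2 : z = Ψ x₀ + (fderiv ℝ Ψ x₀ X + Complex.I • fderiv ℝ Ψ x₀ Y) := by
      rw [hXY]; abel
    have hdec : z - Sh = -(Ψ a - Ψ x₀ - fderiv ℝ Ψ x₀ (a - x₀)) +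
        h ^ 2 • ((fderiv ℝ Ψ a - fderiv ℝ Ψ x₀) b) -
        Complex.I • ((fderiv ℝ Ψ a - fderiv ℝ Ψ x₀) Y) + h ^ 2 • (c 2 - fderiv ℝ Ψ a b) -
        rest := by
      rw [hSh2, hax₀, map_add, map_smul]
      conv_lhs => rw [hz2]
      simp only [ContinuousLinearMap.sub_apply, smul_sub]
      abel
    have hx₀1' : ‖x₀‖ ≤ 1 := by linarith
    have hs := hsec x₀ a hx₀1' han
    have n1 : ‖Ψ a - Ψ x₀ - fderiv ℝ Ψ x₀ (a - x₀)‖ ≤ C₂ * C₃ ^ 2 * h ^ 3 := by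
      refine hs.2.trans ?_
      have h1 : ‖a - x₀‖ ^ 2 ≤ (C₃ * h ^ 2) ^ 2 := pow_le_pow_left₀ (norm_nonneg _) haxn 2
      have h2 : (C₃ * h ^ 2) ^ 2 = C₃ ^ 2 * h ^ 4 := by ring
      have h3 : h ^ 4 ≤ h ^ 3 := pow_le_pow_of_le_one hh.le hh4 (by norm_num)
      calc C₂ * ‖a - x₀‖ ^ 2 ≤ C₂ * (C₃ ^ 2 * h ^ 4) := by rw [← h2]; gcongr
        _ ≤ C₂ * (C₃ ^ 2 * h ^ 3) := by gcongr
        _ = _ := by ring
    have hD : ∀ w : T, ‖(fderiv ℝ Ψ a - fderiv ℝ Ψ x₀) w‖ ≤ C₂ * C₃ * h * ‖w‖ := by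
      intro w
      refine (ContinuousLinearMap.le_opNorm _ _).trans ?_
      apply mul_le_mul_of_nonneg_right _ (norm_nonneg _)
      calc _ ≤ C₂ * ‖a - x₀‖ := hs.1
        _ ≤ C₂ * (C₃ * h) := mul_le_mul_of_nonneg_left haxn1 (by linarith)
        _ = _ := by ring
    have n2 : ‖h ^ 2 • ((fderiv ℝ Ψ a - fderiv ℝ Ψ x₀) b)‖ ≤ C₂ * C₃ * ‖b‖ * h ^ 3 := by
      rw [norm_smul, Real.norm_eq_abs, abs_of_pos (by positivity)]
      calc h ^ 2 * ‖(fderiv ℝ Ψ a - fderiv ℝ Ψ x₀) b‖ ≤ h ^ 2 * (C₂ * C₃ * h * ‖b‖) :=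
            mul_le_mul_of_nonneg_left (hD b) (by positivity)
        _ = _ := by ring
    have n3 : ‖Complex.I • ((fderiv ℝ Ψ a - fderiv ℝ Ψ x₀) Y)‖ ≤ C₂ * C₃ * C₁ * h ^ 3 := by
      rw [norm_smul, Complex.norm_I, one_mul]
      calc ‖(fderiv ℝ Ψ a - fderiv ℝ Ψ x₀) Y‖ ≤ C₂ * C₃ * h * ‖Y‖ := hD Y
        _ ≤ C₂ * C₃ * h * (C₁ * h ^ 2) := mul_le_mul_of_nonneg_left hYn (by positivity)
        _ = _ := by ring
    have n4 : ‖h ^ 2 • (c 2 - fderiv ℝ Ψ a b)‖ ≤ Cs * C₁ * h ^ 3 := by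
      rw [norm_smul, Real.norm_eq_abs, abs_of_pos (by positivity)]
      calc h ^ 2 * ‖c 2 - fderiv ℝ Ψ a b‖ ≤ h ^ 2 * (Cs * ‖v‖) :=
            mul_le_mul_of_nonneg_left hc2 (by positivity)
        _ ≤ h ^ 2 * (Cs * (C₁ * h)) := by gcongr
        _ = _ := by ring
    rw [hdec]
    refine (norm_sub_le _ _).trans ?_
    have m1 := norm_add_le (-(Ψ a - Ψ x₀ - fderiv ℝ Ψ x₀ (a - x₀)) +
        h ^ 2 • ((fderiv ℝ Ψ a - fderiv ℝ Ψ x₀) b) -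
        Complex.I • ((fderiv ℝ Ψ a - fderiv ℝ Ψ x₀) Y)) (h ^ 2 • (c 2 - fderiv ℝ Ψ a b))
    have m2 := norm_sub_le (-(Ψ a - Ψ x₀ - fderiv ℝ Ψ x₀ (a - x₀)) +
        h ^ 2 • ((fderiv ℝ Ψ a - fderiv ℝ Ψ x₀) b))
        (Complex.I • ((fderiv ℝ Ψ a - fderiv ℝ Ψ x₀) Y))
    have m3 := norm_add_le (-(Ψ a - Ψ x₀ - fderiv ℝ Ψ x₀ (a - x₀)))
        (h ^ 2 • ((fderiv ℝ Ψ a - fderiv ℝ Ψ x₀) b))
    rw [norm_neg] at m3
    have : C₄ * h ^ 3 = C₂ * C₃ ^ 2 * h ^ 3 + C₂ * C₃ * ‖b‖ * h ^ 3 + C₂ * C₃ * C₁ * h ^ 3 +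
        Cs * C₁ * h ^ 3 + 4 * Cs * h ^ 3 := by rw [hC₄]; ring
    linarith
  -- the disc
  refine ⟨fun ζ => ∑ j ∈ Finset.range 7, ζ ^ j • c j + (z - Sh), ?_, ?_, ?_, ?_⟩
  · fun_prop
  · simp only
    rw [← hSh]; abel
  · -- bounded near `K`
    intro ζ hζ
    have hne : Ψ x₀ ∈ K := hside x₀ (by linarith) hℓx₀
    have hmem : Ψ a ∈ K := by
      apply hside
      · have h1 : ‖a‖ ≤ ‖x₀‖ + ‖a - x₀‖ := by
          calc ‖a‖ = ‖x₀ + (a - x₀)‖ := by congr 1; abel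
            _ ≤ _ := norm_add_le _ _
        linarith
      · rw [ha, map_add, map_add, map_smul, hℓb]
        have h1 : ℓ X ≤ ‖ℓ‖ * (C₁ * h ^ 2) := (le_abs_self _).trans
          ((ℓ.le_opNorm X).trans (mul_le_mul_of_nonneg_left hXn (norm_nonneg _)))
        have h2 : 0 < h ^ 2 := by positivity
        have h3 : h ^ 2 • (-A) = -(A * h ^ 2) := by rw [smul_eq_mul]; ring
        rw [h3, hA]
        nlinarith [norm_nonneg ℓ, mul_nonneg (norm_nonneg ℓ) (by positivity : 0 ≤ C₁ * h ^ 2)]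
    refine (infDist_le_dist_of_mem hmem).trans ?_
    rw [dist_eq_norm]
    have hζ1 : ‖ζ‖ ≤ 1 := hζ.trans hτ3
    have e0 : ζ ^ 0 • c 0 = Ψ a := by rw [pow_zero, one_smul, hc0]
    have h1 : ∑ j ∈ Finset.range 7, ζ ^ j • c j + (z - Sh) - Ψ a =
        ζ ^ 1 • c 1 + ζ ^ 2 • c 2 + (ζ ^ 3 • c 3 + ζ ^ 4 • c 4 + ζ ^ 5 • c 5 + ζ ^ 6 • c 6) +
          (z - Sh) := by
      rw [sum7, e0]; abel
    rw [h1]
    have hp : ∀ j, 1 ≤ j → j < 7 → ‖ζ ^ j • c j‖ ≤ Cs * τ₀ := by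
      intro j hj1 hj7
      refine (hrest ζ hζ1 j hj7).trans (mul_le_mul_of_nonneg_left ?_ (by linarith))
      calc ‖ζ‖ ^ j ≤ ‖ζ‖ ^ 1 := pow_le_pow_of_le_one (norm_nonneg _) hζ1 hj1
        _ = ‖ζ‖ := pow_one _
        _ ≤ τ₀ := hζ
    have p1 := hp 1 (by norm_num) (by norm_num)
    have p2 := hp 2 (by norm_num) (by norm_num)
    have p3 := hp 3 (by norm_num) (by norm_num)
    have p4 := hp 4 (by norm_num) (by norm_num)
    have p5 := hp 5 (by norm_num) (by norm_num)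
    have p6 := hp 6 (by norm_num) (by norm_num)
    have q1 := norm_add_le (ζ ^ 1 • c 1 + ζ ^ 2 • c 2 + (ζ ^ 3 • c 3 + ζ ^ 4 • c 4 + ζ ^ 5 • c 5 +
      ζ ^ 6 • c 6)) (z - Sh)
    have q2 := norm_add_le (ζ ^ 1 • c 1 + ζ ^ 2 • c 2) (ζ ^ 3 • c 3 + ζ ^ 4 • c 4 + ζ ^ 5 • c 5 +
      ζ ^ 6 • c 6)
    have q3 := norm_add_le (ζ ^ 1 • c 1) (ζ ^ 2 • c 2)
    have q4 := norm_add_le (ζ ^ 3 • c 3 + ζ ^ 4 • c 4 + ζ ^ 5 • c 5) (ζ ^ 6 • c 6)
    have q5 := norm_add_le (ζ ^ 3 • c 3 + ζ ^ 4 • c 4) (ζ ^ 5 • c 5)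
    have q6 := norm_add_le (ζ ^ 3 • c 3) (ζ ^ 4 • c 4)
    have r1 : C₄ * h ^ 3 ≤ 1 / 2 := by
      have r2 : h ^ 3 ≤ h := by
        calc h ^ 3 ≤ h ^ 1 := pow_le_pow_of_le_one hh.le hh4 (by norm_num)
          _ = h := pow_one _
      have r3 : C₄ ≤ C := by rw [hCdef]; linarith
      calc C₄ * h ^ 3 ≤ C * h := mul_le_mul r3 r2 (by positivity) (by linarith)
        _ ≤ 1 / 2 := hh1
    linarith
  · intro t ht
    have ht1 : |t| ≤ 1 := ht.trans hτ3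
    have hmem : Ψ (a + t • v + t ^ 2 • b) ∈ K := by
      apply hside
      · have h1 : ‖a + t • v + t ^ 2 • b‖ ≤ ‖x₀‖ + ‖a - x₀‖ + |t| * ‖v‖ + t ^ 2 * ‖b‖ := by
          have e1 : a + t • v + t ^ 2 • b = x₀ + (a - x₀) + t • v + t ^ 2 • b := by abel
          rw [e1]
          have q1 := norm_add_le (x₀ + (a - x₀) + t • v) (t ^ 2 • b)
          have q2 := norm_add_le (x₀ + (a - x₀)) (t • v)
          have q3 := norm_add_le x₀ (a - x₀)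
          rw [norm_smul, Real.norm_eq_abs] at q2
          rw [norm_smul (t ^ 2) b, Real.norm_eq_abs, abs_of_nonneg (sq_nonneg t)] at q1
          linarith
        have h2 : |t| * ‖v‖ ≤ C₃ * h := by
          have h3 : |t| * ‖v‖ ≤ 1 * (C₁ * h) := mul_le_mul ht1 hvn (norm_nonneg _) zero_le_one
          have h4 : C₁ * h ≤ C₃ * h := mul_le_mul_of_nonneg_right
            (by rw [hC₃]; linarith [norm_nonneg b]) hh.le
          linarith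
        have h3 : t ^ 2 * ‖b‖ ≤ C₃ * τ₀ := by
          have h4 : t ^ 2 ≤ τ₀ := by
            rw [← sq_abs]
            calc |t| ^ 2 = |t| * |t| := sq _
              _ ≤ τ₀ * 1 := mul_le_mul ht ht1 (abs_nonneg _) hτ₀pos.le
              _ = τ₀ := mul_one _
          have h5 : ‖b‖ ≤ C₃ := by rw [hC₃]; linarith
          calc t ^ 2 * ‖b‖ ≤ τ₀ * C₃ := mul_le_mul h4 h5 (norm_nonneg _) hτ₀pos.le
            _ = _ := mul_comm _ _
        linarith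
      · rw [ha]
        simp only [map_add, map_smul, hℓb, smul_eq_mul]
        have h1 : ℓ X ≤ ‖ℓ‖ * (C₁ * h ^ 2) := (le_abs_self _).trans
          ((ℓ.le_opNorm X).trans (mul_le_mul_of_nonneg_left hXn (norm_nonneg _)))
        have h2 : |ℓ v| ≤ ‖ℓ‖ * (C₁ * h) := (ℓ.le_opNorm v).trans
          (mul_le_mul_of_nonneg_left hvn (norm_nonneg _))
        have h3 : t * ℓ v ≤ |t| * (‖ℓ‖ * (C₁ * h)) := by
          calc t * ℓ v ≤ |t * ℓ v| := le_abs_self _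
            _ = |t| * |ℓ v| := abs_mul _ _
            _ ≤ _ := mul_le_mul_of_nonneg_left h2 (abs_nonneg _)
        have h4 : |t| * h ≤ (t ^ 2 + h ^ 2) / 2 := by
          have := sq_nonneg (|t| - h)
          rw [← sq_abs t]
          nlinarith
        have h5 : 0 ≤ ‖ℓ‖ * C₁ := by positivity
        have h6 : |t| * (‖ℓ‖ * (C₁ * h)) ≤ (‖ℓ‖ * C₁) * ((t ^ 2 + h ^ 2) / 2) := by
          calc |t| * (‖ℓ‖ * (C₁ * h)) = (‖ℓ‖ * C₁) * (|t| * h) := by ring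
            _ ≤ _ := mul_le_mul_of_nonneg_left h4 h5
        have h7 : 0 ≤ t ^ 2 := sq_nonneg t
        have h8 : 0 < h ^ 2 := by positivity
        rw [hA]
        nlinarith [mul_nonneg h5 h7, mul_nonneg h5 h8.le]
    refine (infDist_le_dist_of_mem hmem).trans ?_
    rw [dist_eq_norm]
    have h1 := hct t ht1
    have h2 : ∑ j ∈ Finset.range 7, ((t : ℝ) : ℂ) ^ j • c j =
        ∑ j ∈ Finset.range 7, t ^ j • c j := by
      refine Finset.sum_congr rfl fun j _ => ?_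
      rw [← Complex.ofReal_pow, Complex.coe_smul]
    simp only
    rw [h2]
    have h3 : ∑ j ∈ Finset.range 7, t ^ j • c j + (z - Sh) - Ψ (a + t • v + t ^ 2 • b) =
        -(Ψ (a + t • v + t ^ 2 • b) - ∑ j ∈ Finset.range 7, t ^ j • c j) + (z - Sh) := by abel
    rw [h3]
    refine (norm_add_le _ _).trans ?_
    rw [norm_neg]
    have h4 : 0 ≤ |t| ^ 7 := by positivity
    have h5 : 0 ≤ h ^ 3 := by positivity
    have h6 : C * (|t| ^ 7 + h ^ 3) = Cs * |t| ^ 7 + C₄ * h ^ 3 + (C₄ * |t| ^ 7 + Cs * h ^ 3) := by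
      rw [hCdef]; ring
    have h7 : 0 ≤ C₄ * |t| ^ 7 + Cs * h ^ 3 := by positivity
    linarith

end Pool.Agent.Helper32.Siciak
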