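import Mathlib
import Pool.Agent.Helper32.Siciak.Local
import Pool.Agent.Helper32.Siciak.Chart

open Set Metric Filter Topology
open scoped ContDiff

namespace Pool.Agent.Helper32.Siciak

variable {E : Type*} [NormedAddCommGroup E] [InnerProductSpace ℂ E] [FiniteDimensional ℂ E]

theorem GoodAt.mono {K : Set E} {C C' h₀ h₀' τ₀ τ₀' : ℝ} {q : E} (h : GoodAt K C h₀ τ₀ q)
    (hC : C ≤ C') (hh : h₀' ≤ h₀) (hτ : τ₀' ≤ τ₀) : GoodAt K C' h₀' τ₀' q := by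
  intro s hs hsh z hz
  obtain ⟨f, h1, h2, h3, h4⟩ := h s hs (hsh.trans hh) z hz
  refine ⟨f, h1, h2, fun ζ hζ => h3 ζ (hζ.trans hτ), fun t ht => (h4 t (ht.trans hτ)).trans ?_⟩
  exact mul_le_mul_of_nonneg_right hC (by positivity)

/-- Uniform version on a set. -/
def GoodOn (K s : Set E) : Prop :=
  ∃ C h₀ τ₀ : ℝ, 1 ≤ C ∧ 0 < h₀ ∧ 0 < τ₀ ∧ ∀ q ∈ s, q ∈ K → GoodAt K C h₀ τ₀ q

theorem GoodOn.union {K s t : Set E} (hs : GoodOn K s) (ht : GoodOn K t) : GoodOn K (s ∪ t) := by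
  obtain ⟨C, h₀, τ₀, hC, hh, hτ, h⟩ := hs
  obtain ⟨C', h₀', τ₀', hC', hh', hτ', h'⟩ := ht
  refine ⟨max C C', min h₀ h₀', min τ₀ τ₀', hC.trans (le_max_left _ _), lt_min hh hh',
    lt_min hτ hτ', ?_⟩
  rintro q (hq | hq) hqK
  · exact (h q hq hqK).mono (le_max_left _ _) (min_le_left _ _) (min_le_left _ _)
  · exact (h' q hq hqK).mono (le_max_right _ _) (min_le_right _ _) (min_le_right _ _)

theorem discProp_of_goodOn {K : Set E} (hK : IsCompact K) (hne : K.Nonempty)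
    (h : ∀ p ∈ K, ∃ t ∈ 𝓝[K] p, GoodOn K t) :
    ∃ C h₀ τ₀ : ℝ, 1 ≤ C ∧ 0 < h₀ ∧ 0 < τ₀ ∧ DiscProp K C h₀ τ₀ := by
  have h1 : GoodOn K K := by
    refine hK.induction_on (p := GoodOn K) ⟨1, 1, 1, le_refl _, one_pos, one_pos, ?_⟩ ?_ ?_ h
    · intro q hq
      exact absurd hq (notMem_empty q)
    · rintro s t hst ⟨C, h₀, τ₀, hC, hh, hτ, h⟩
      exact ⟨C, h₀, τ₀, hC, hh, hτ, fun q hq => h q (hst hq)⟩
    · intro s t hs ht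
      exact hs.union ht
  obtain ⟨C, h₀, τ₀, hC, hh, hτ, h⟩ := h1
  refine ⟨C, h₀, τ₀, hC, hh, hτ, ?_⟩
  intro s hs hsh z hz
  obtain ⟨q, hq, hdq⟩ := hK.exists_infDist_eq_dist hne z
  exact h q hq hq s hs hsh z (by rw [← dist_eq_norm, ← hdq]; exact hz)

theorem nine_le : (9 : WithTop ℕ∞) ≤ ∞ := by
  have h : ((9 : ℕ∞) : WithTop ℕ∞) ≤ ((⊤ : ℕ∞) : WithTop ℕ∞) := WithTop.coe_le_coe.2 le_top
  exact h

/-- Tangent vectors are killed by the differential of local equations. -/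
theorem tangent_ker {M : Set E} {p v : E} (hv : v ∈ tangent M p) {k : ℕ} {U : Set E}
    {ρ : E → (Fin k → ℝ)} (hU : IsOpen U) (hp : p ∈ U) (hρ : ContDiffOn ℝ ∞ ρ U)
    (hM : M ∩ U = {q ∈ U | ρ q = 0}) : fderiv ℝ ρ p v = 0 := by
  obtain ⟨γ, hγ0, hγM, hγd⟩ := hv
  have h1 : ContDiffAt ℝ ∞ ρ p := hρ.contDiffAt (hU.mem_nhds hp)
  have h2 : HasFDerivAt ρ (fderiv ℝ ρ p) (γ 0) := by
    rw [hγ0]; exact (h1.differentiableAt (by norm_num)).hasFDerivAt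
  have h3 : HasDerivAt (fun t => ρ (γ t)) (fderiv ℝ ρ p v) 0 := h2.comp_hasDerivAt 0 hγd
  have h4 : ∀ᶠ t in 𝓝 (0 : ℝ), ρ (γ t) = 0 := by
    have h5 : ∀ᶠ t in 𝓝 (0 : ℝ), γ t ∈ U := by
      have := hγd.continuousAt.tendsto
      rw [hγ0] at this
      exact this.eventually (hU.mem_nhds hp)
    filter_upwards [hγM, h5] with t ht1 ht2
    have : γ t ∈ M ∩ U := ⟨ht1, ht2⟩
    rw [hM] at this
    exact this.2
  have h6 : HasDerivAt (fun t => ρ (γ t)) 0 0 :=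
    (hasDerivAt_const (0 : ℝ) (0 : Fin k → ℝ)).congr_of_eventuallyEq h4
  exact h3.unique h6

/-- Local estimate from an adapted parametrisation. -/
theorem goodOn_of_chart {K : Set E} {N : Submodule ℝ E} {Ψ : N × ℝ → E} (hΨ : ContDiff ℝ 9 Ψ)
    (hgen : ∀ e : E, ∃ X Y : N × ℝ, fderiv ℝ Ψ 0 X + Complex.I • fderiv ℝ Ψ 0 Y = e) {δ : ℝ}
    (hδ : 0 < δ) {p : E}
    (hq : ∀ η > 0, ∃ t ∈ 𝓝[K] p, ∀ q ∈ t, q ∈ K → ∃ x : N × ℝ, ‖x‖ < η ∧ Ψ x = q ∧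
      ((x.2 ≤ 0 ∧ ∀ y : N × ℝ, ‖y‖ < δ → y.2 ≤ 0 → Ψ y ∈ K) ∨
        (0 ≤ x.2 ∧ ∀ y : N × ℝ, ‖y‖ < δ → 0 ≤ y.2 → Ψ y ∈ K))) :
    ∃ t ∈ 𝓝[K] p, GoodOn K t := by
  have hfinE : FiniteDimensional ℝ E := FiniteDimensional.complexToReal E
  -- the two sides
  have hL : ∃ ρ C h₀ τ₀ : ℝ, 0 < ρ ∧ 1 ≤ C ∧ 0 < h₀ ∧ 0 < τ₀ ∧
      ((∀ y : N × ℝ, ‖y‖ < δ → y.2 ≤ 0 → Ψ y ∈ K) → ∀ x₀ : N × ℝ, ‖x₀‖ ≤ ρ → x₀.2 ≤ 0 →
      GoodAt K C h₀ τ₀ (Ψ x₀)) := by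
    by_cases hside : ∀ y : N × ℝ, ‖y‖ < δ → y.2 ≤ 0 → Ψ y ∈ K
    · obtain ⟨ρ, C, h₀, τ₀, h1, h2, h3, h4, h5⟩ := disc_construct (T := N × ℝ) hΨ hgen
        (ℓ := ContinuousLinearMap.snd ℝ N ℝ) (w₁ := (0, 1)) (by simp) hδ hside
      exact ⟨ρ, C, h₀, τ₀, h1, h2, h3, h4, fun _ => h5⟩
    · exact ⟨1, 1, 1, 1, one_pos, le_refl _, one_pos, one_pos, fun h => absurd h hside⟩
  have hR : ∃ ρ C h₀ τ₀ : ℝ, 0 < ρ ∧ 1 ≤ C ∧ 0 < h₀ ∧ 0 < τ₀ ∧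
      ((∀ y : N × ℝ, ‖y‖ < δ → 0 ≤ y.2 → Ψ y ∈ K) → ∀ x₀ : N × ℝ, ‖x₀‖ ≤ ρ → 0 ≤ x₀.2 →
      GoodAt K C h₀ τ₀ (Ψ x₀)) := by
    by_cases hside : ∀ y : N × ℝ, ‖y‖ < δ → 0 ≤ y.2 → Ψ y ∈ K
    · obtain ⟨ρ, C, h₀, τ₀, h1, h2, h3, h4, h5⟩ := disc_construct (T := N × ℝ) hΨ hgen
        (ℓ := -ContinuousLinearMap.snd ℝ N ℝ) (w₁ := (0, -1)) (by simp) hδ
        (fun y hy hy2 => hside y hy (by simpa using hy2))
      exact ⟨ρ, C, h₀, τ₀, h1, h2, h3, h4, fun _ x₀ hx₀ hx2 => h5 x₀ hx₀ (by simpa using hx2)⟩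
    · exact ⟨1, 1, 1, 1, one_pos, le_refl _, one_pos, one_pos, fun h => absurd h hside⟩
  obtain ⟨ρ, C, h₀, τ₀, hρ, hC, hh, hτ, hLx⟩ := hL
  obtain ⟨ρ', C', h₀', τ₀', hρ', hC', hh', hτ', hRx⟩ := hR
  obtain ⟨t, ht, hqt⟩ := hq (min ρ ρ') (lt_min hρ hρ')
  refine ⟨t, ht, max C C', min h₀ h₀', min τ₀ τ₀', hC.trans (le_max_left _ _), lt_min hh hh',
    lt_min hτ hτ', ?_⟩
  intro q hqt' hqK
  obtain ⟨x, hx, hxq, hor⟩ := hqt q hqt' hqK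
  rw [← hxq]
  rcases hor with ⟨hx2, hside⟩ | ⟨hx2, hside⟩
  · exact (hLx hside x (hx.le.trans (min_le_left _ _)) hx2).mono (le_max_left _ _)
      (min_le_left _ _) (min_le_left _ _)
  · exact (hRx hside x (hx.le.trans (min_le_right _ _)) hx2).mono (le_max_right _ _)
      (min_le_right _ _) (min_le_right _ _)

/-- Genericity in the parametrisation. -/
theorem gen_of_generic {M : Set E} {p : E} (hp : p ∈ M) (hgen : IsGeneric M) {k : ℕ} {U : Set E}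
    {ρ : E → (Fin k → ℝ)} (hU : IsOpen U) (hpU : p ∈ U) (hρ : ContDiffOn ℝ ∞ ρ U)
    (hM : M ∩ U = {q ∈ U | ρ q = 0}) {N : Submodule ℝ E} {Ψ : N × ℝ → E}
    (hΨ : ∀ v, fderiv ℝ ρ p v = 0 → ∃ X, fderiv ℝ Ψ 0 X = v) (e : E) :
    ∃ X Y : N × ℝ, fderiv ℝ Ψ 0 X + Complex.I • fderiv ℝ Ψ 0 Y = e := by
  obtain ⟨v₁, hv₁, v₂, hv₂, he⟩ := hgen p hp e
  obtain ⟨X, hX⟩ := hΨ v₁ (tangent_ker hv₁ hU hpU hρ hM)
  obtain ⟨Y, hY⟩ := hΨ v₂ (tangent_ker hv₂ hU hpU hρ hM)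
  exact ⟨X, Y, by rw [hX, hY, he]⟩

/-- The interior case. -/
theorem goodOn_interior [Nontrivial E] {M D : Set E} (hM : IsSubmanifold M) (hgen : IsGeneric M)
    (hD : IsDomainIn M D) {p : E} (hp : p ∈ D) : ∃ t ∈ 𝓝[closure D] p, GoodOn (closure D) t := by
  have hfinE : FiniteDimensional ℝ E := FiniteDimensional.complexToReal E
  have hpM : p ∈ M := hD.subset hp
  obtain ⟨k, U, ρ, hU, hpU, hρ, hsurj, hMU⟩ := hM p hpM
  obtain ⟨W, hW, hDW⟩ := hD.rel_open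
  have hpW : p ∈ W := by rw [hDW] at hp; exact hp.2
  have hρp : ρ p = 0 := by
    have : p ∈ M ∩ U := ⟨hpM, hpU⟩
    rw [hMU] at this
    exact this.2
  -- a nonzero tangent vector
  obtain ⟨v₀, hv₀, hv₀0⟩ : ∃ v₀ ∈ tangent M p, v₀ ≠ 0 := by
    obtain ⟨w, hw⟩ := exists_ne (0 : E)
    obtain ⟨v₁, hv₁, v₂, hv₂, he⟩ := hgen p hpM w
    by_cases h1 : v₁ = 0
    · refine ⟨v₂, hv₂, fun h2 => hw ?_⟩
      rw [he, h1, h2, smul_zero, add_zero]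
    · exact ⟨v₁, hv₁, h1⟩
  let φ : E →L[ℝ] ℝ := Complex.reCLM.comp ((innerSL ℂ v₀).restrictScalars ℝ)
  have hφ : ∀ x, φ x = (inner ℂ v₀ x).re := fun x => rfl
  set r : E → ℝ := fun q => φ (q - p) with hr
  have hrd : HasFDerivAt r φ p := by
    have h0 : HasFDerivAt (fun q : E => q - p) (ContinuousLinearMap.id ℝ E) p :=
      (hasFDerivAt_id p).sub_const p
    exact HasFDerivAt.comp (g := φ) (f := fun q : E => q - p) (g' := φ) p φ.hasFDerivAt h0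
  have hrv₀ : fderiv ℝ r p v₀ ≠ 0 := by
    rw [hrd.fderiv, hφ]
    have h1 : (inner ℂ v₀ v₀).re = ‖v₀‖ ^ 2 := by
      have := inner_self_eq_norm_sq (𝕜 := ℂ) v₀
      simpa using this
    rw [h1]
    have := norm_pos_iff.2 hv₀0
    positivity
  have hrc : ContDiffAt ℝ 9 r p := by fun_prop
  obtain ⟨N, Ψ, hΨ, hΨ0, ⟨δ, hδ, hΨδ⟩, hΨq, hΨt⟩ := exists_chart
    ((hρ.contDiffAt (hU.mem_nhds hpU)).of_le nine_le) hrc hρp (by simp [hr]) hsurj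
    (tangent_ker hv₀ hU hpU hρ hMU) hrv₀
  -- shrink `δ`
  have hev : ∀ᶠ x in 𝓝 (0 : N × ℝ), Ψ x ∈ U ∩ W := by
    have h1 := hΨ.continuous.tendsto 0
    rw [hΨ0] at h1
    exact h1.eventually ((hU.inter hW).mem_nhds ⟨hpU, hpW⟩)
  obtain ⟨δ', hδ', hΨδ'⟩ := Metric.eventually_nhds_iff.1 hev
  have hmemD : ∀ y : N × ℝ, ‖y‖ < min δ δ' → Ψ y ∈ D := by
    intro y hy
    have h1 := (hΨδ y (hy.trans_le (min_le_left _ _))).1
    have h2 := hΨδ' (y := y) (by rw [dist_zero_right]; exact hy.trans_le (min_le_right _ _))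
    have h3 : Ψ y ∈ M ∩ U := by rw [hMU]; exact ⟨h2.1, h1⟩
    rw [hDW]
    exact ⟨h3.1, h2.2⟩
  refine goodOn_of_chart hΨ (gen_of_generic hpM hgen hU hpU hρ hMU hΨt)
    (δ := min δ δ') (by positivity) ?_
  intro η hη
  have h1 := hΨq η hη
  have h2 : ∀ᶠ q in 𝓝 p, q ∈ U := hU.mem_nhds hpU
  refine ⟨_, mem_nhdsWithin_of_mem_nhds (h1.and h2), ?_⟩
  intro q hq hqK
  have hqM : q ∈ M := hD.closure_subset hqK
  have h3 : q ∈ M ∩ U := ⟨hqM, hq.2⟩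
  rw [hMU] at h3
  obtain ⟨x, hx, hxq, _⟩ := hq.1 h3.2
  refine ⟨x, hx, hxq, ?_⟩
  rcases le_total x.2 0 with h4 | h4
  · exact Or.inl ⟨h4, fun y hy _ => subset_closure (hmemD y hy)⟩
  · exact Or.inr ⟨h4, fun y hy _ => subset_closure (hmemD y hy)⟩

/-- The boundary case. -/
theorem goodOn_boundary {M D : Set E} (hM : IsSubmanifold M) (hgen : IsGeneric M)
    (hD : IsDomainIn M D) (hbd : HasSmoothBoundary M D) {p : E} (hp : p ∈ closure D \ D) :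
    ∃ t ∈ 𝓝[closure D] p, GoodOn (closure D) t := by
  have hfinE : FiniteDimensional ℝ E := FiniteDimensional.complexToReal E
  have hpM : p ∈ M := hD.closure_subset hp.1
  obtain ⟨k, U, ρ, hU, hpU, hρ, hsurj, hMU⟩ := hM p hpM
  obtain ⟨U₂, r, hU₂, hpU₂, hr, ⟨v₀, hv₀, hrv₀⟩, hbdU⟩ := hbd p hp
  obtain ⟨W, hW, hDW⟩ := hD.rel_open
  have hρp : ρ p = 0 := by
    have : p ∈ M ∩ U := ⟨hpM, hpU⟩
    rw [hMU] at this
    exact this.2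
  have hrp : r p = 0 := by
    have : p ∈ (closure D \ D) ∩ U₂ := ⟨hp, hpU₂⟩
    rw [hbdU] at this
    exact this.2
  obtain ⟨N, Ψ, hΨ, hΨ0, ⟨δ, hδ, hΨδ⟩, hΨq, hΨt⟩ := exists_chart
    ((hρ.contDiffAt (hU.mem_nhds hpU)).of_le nine_le)
    ((hr.contDiffAt (hU₂.mem_nhds hpU₂)).of_le nine_le) hρp hrp hsurj
    (tangent_ker hv₀ hU hpU hρ hMU) hrv₀
  have hev : ∀ᶠ x in 𝓝 (0 : N × ℝ), Ψ x ∈ U ∩ U₂ := by
    have h1 := hΨ.continuous.tendsto 0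
    rw [hΨ0] at h1
    exact h1.eventually ((hU.inter hU₂).mem_nhds ⟨hpU, hpU₂⟩)
  obtain ⟨δ', hδ', hΨδ'⟩ := Metric.eventually_nhds_iff.1 hev
  set δ₀ : ℝ := min δ δ' with hδ₀
  have hδ₀pos : 0 < δ₀ := lt_min hδ hδ'
  have hmemM : ∀ y : N × ℝ, ‖y‖ < δ₀ → Ψ y ∈ M ∧ Ψ y ∈ U₂ ∧ r (Ψ y) = y.2 := by
    intro y hy
    have h1 := hΨδ y (hy.trans_le (min_le_left _ _))
    have h2 := hΨδ' (y := y) (by rw [dist_zero_right]; exact hy.trans_le (min_le_right _ _))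
    have h3 : Ψ y ∈ M ∩ U := by rw [hMU]; exact ⟨h2.1, h1.1⟩
    exact ⟨h3.1, h2.2, h1.2⟩
  -- points off `r = 0`
  have hoff : ∀ y : N × ℝ, ‖y‖ < δ₀ → y.2 ≠ 0 → Ψ y ∈ closure D → Ψ y ∈ D := by
    intro y hy hy2 hcl
    obtain ⟨h1, h2, h3⟩ := hmemM y hy
    by_contra hnot
    have h4 : Ψ y ∈ (closure D \ D) ∩ U₂ := ⟨⟨hcl, hnot⟩, h2⟩
    rw [hbdU] at h4
    exact hy2 (by rw [← h3]; exact h4.2)
  -- the clopen argument
  have hclopen : ∀ s : Set (N × ℝ), IsPreconnected s → (∀ y ∈ s, ‖y‖ < δ₀ ∧ y.2 ≠ 0) →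
      (∃ y ∈ s, Ψ y ∈ D) → ∀ y ∈ s, Ψ y ∈ D := by
    intro s hs hsub ⟨y₀, hy₀, hy₀D⟩
    set O₁ : Set (N × ℝ) := {y | ‖y‖ < δ₀} ∩ Ψ ⁻¹' W with hO₁
    set O₂ : Set (N × ℝ) := Ψ ⁻¹' (closure D)ᶜ with hO₂
    have hO₁o : IsOpen O₁ :=
      (isOpen_lt continuous_norm continuous_const).inter (hW.preimage hΨ.continuous)
    have hO₂o : IsOpen O₂ := isClosed_closure.isOpen_compl.preimage hΨ.continuous
    have hO₁D : ∀ y ∈ O₁, Ψ y ∈ D := by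
      intro y hy
      rw [hDW]
      exact ⟨(hmemM y hy.1).1, hy.2⟩
    have hdisj : Disjoint O₁ O₂ := by
      rw [Set.disjoint_left]
      intro y hy1 hy2
      exact hy2 (subset_closure (hO₁D y hy1))
    have hcover : s ⊆ O₁ ∪ O₂ := by
      intro y hy
      by_cases hcl : Ψ y ∈ closure D
      · left
        refine ⟨(hsub y hy).1, ?_⟩
        have := hoff y (hsub y hy).1 (hsub y hy).2 hcl
        rw [hDW] at this
        exact this.2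
      · right; exact hcl
    rcases hs.subset_or_subset hO₁o hO₂o hdisj hcover with h | h
    · exact fun y hy => hO₁D y (h hy)
    · exact absurd (subset_closure hy₀D) (h hy₀)
  have hSm : IsPreconnected ({y : N × ℝ | ‖y‖ < δ₀} ∩ {y | y.2 < 0}) := by
    apply Convex.isPreconnected
    apply Convex.inter
    · have : {y : N × ℝ | ‖y‖ < δ₀} = ball 0 δ₀ := by ext y; simp
      rw [this]; exact convex_ball _ _
    · exact (convex_Iio (0 : ℝ)).linear_preimage (LinearMap.snd ℝ N ℝ)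
  have hSp : IsPreconnected ({y : N × ℝ | ‖y‖ < δ₀} ∩ {y | 0 < y.2}) := by
    apply Convex.isPreconnected
    apply Convex.inter
    · have : {y : N × ℝ | ‖y‖ < δ₀} = ball 0 δ₀ := by ext y; simp
      rw [this]; exact convex_ball _ _
    · exact (convex_Ioi (0 : ℝ)).linear_preimage (LinearMap.snd ℝ N ℝ)
  -- closed sides
  have hlimit : ∀ (σ : ℝ), (∀ y : N × ℝ, ‖y‖ < δ₀ → 0 < σ * y.2 → Ψ y ∈ D) → σ * σ = 1 →
      ∀ y : N × ℝ, ‖y‖ < δ₀ → 0 ≤ σ * y.2 → Ψ y ∈ closure D := by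
    intro σ hσ hσσ y hy hy2
    have h1 : Tendsto (fun ε : ℝ => Ψ (y + (0, ε * σ))) (𝓝[>] 0) (𝓝 (Ψ y)) := by
      have h2 : Continuous (fun ε : ℝ => Ψ (y + (0, ε * σ))) := by
        apply hΨ.continuous.comp
        fun_prop
      have h3 := h2.tendsto 0
      have h4 : y + ((0 : N), (0 : ℝ) * σ) = y := by
        rw [zero_mul]; exact add_zero y
      rw [h4] at h3
      exact h3.mono_left nhdsWithin_le_nhds
    apply mem_closure_of_tendsto h1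
    have h5 : ∀ᶠ ε : ℝ in 𝓝[>] 0, ‖y + ((0 : N), ε * σ)‖ < δ₀ := by
      have h6 : Continuous (fun ε : ℝ => ‖y + ((0 : N), ε * σ)‖) := by fun_prop
      have h7 := h6.tendsto 0
      have h4 : y + ((0 : N), (0 : ℝ) * σ) = y := by
        rw [zero_mul]; exact add_zero y
      rw [h4] at h7
      exact (h7.eventually (gt_mem_nhds hy)).filter_mono nhdsWithin_le_nhds
    filter_upwards [h5, self_mem_nhdsWithin] with ε hε1 hε2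
    apply hσ _ hε1
    have hε : (0 : ℝ) < ε := hε2
    have h8 : (y + ((0 : N), ε * σ)).2 = y.2 + ε * σ := rfl
    rw [h8]
    have h9 : σ * (y.2 + ε * σ) = σ * y.2 + ε * (σ * σ) := by ring
    rw [h9, hσσ]
    linarith
  have hleft : (∃ y : N × ℝ, ‖y‖ < δ₀ ∧ y.2 < 0 ∧ Ψ y ∈ D) →
      ∀ y : N × ℝ, ‖y‖ < δ₀ → y.2 ≤ 0 → Ψ y ∈ closure D := by
    rintro ⟨y₀, h1, h2, h3⟩ y hy hy2
    have h4 := hclopen _ hSm (fun y hy => ⟨hy.1, hy.2.ne⟩) ⟨y₀, ⟨h1, h2⟩, h3⟩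
    refine hlimit (-1) (fun y hy hy2 => h4 y ⟨hy, ?_⟩) (by norm_num) y hy (by linarith)
    change y.2 < 0
    linarith
  have hright : (∃ y : N × ℝ, ‖y‖ < δ₀ ∧ 0 < y.2 ∧ Ψ y ∈ D) →
      ∀ y : N × ℝ, ‖y‖ < δ₀ → 0 ≤ y.2 → Ψ y ∈ closure D := by
    rintro ⟨y₀, h1, h2, h3⟩ y hy hy2
    have h4 := hclopen _ hSp (fun y hy => ⟨hy.1, hy.2.ne'⟩) ⟨y₀, ⟨h1, h2⟩, h3⟩
    refine hlimit 1 (fun y hy hy2 => h4 y ⟨hy, ?_⟩) (by norm_num) y hy (by linarith)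
    change 0 < y.2
    linarith
  refine goodOn_of_chart hΨ (gen_of_generic hpM hgen hU hpU hρ hMU hΨt) hδ₀pos ?_
  intro η hη
  have h1 := hΨq (min η δ₀) (lt_min hη hδ₀pos)
  have h2 : ∀ᶠ q in 𝓝 p, q ∈ U ∩ U₂ := (hU.inter hU₂).mem_nhds ⟨hpU, hpU₂⟩
  refine ⟨_, mem_nhdsWithin_of_mem_nhds (eventually_eventually_nhds.2 (h1.and h2)), ?_⟩
  intro q hq hqK
  have hqq := hq.self_of_nhds
  have hqM : q ∈ M := hD.closure_subset hqK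
  have h3 : q ∈ M ∩ U := ⟨hqM, hqq.2.1⟩
  rw [hMU] at h3
  obtain ⟨x, hx, hxq, hxr⟩ := hqq.1 h3.2
  have hxδ : ‖x‖ < δ₀ := hx.trans_le (min_le_right _ _)
  refine ⟨x, hx.trans_le (min_le_left _ _), hxq, ?_⟩
  rcases lt_trichotomy x.2 0 with h4 | h4 | h4
  · left
    refine ⟨h4.le, hleft ⟨x, hxδ, h4, hoff x hxδ h4.ne (by rw [hxq]; exact hqK)⟩⟩
  · -- on the boundary: nearby points of `D`
    obtain ⟨q', hq'D, hq'⟩ : ∃ q' ∈ D, (ρ q' = 0 → ∃ x : N × ℝ, ‖x‖ < min η δ₀ ∧ Ψ x = q' ∧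
        x.2 = r q') ∧ q' ∈ U ∩ U₂ := by
      have h5 := mem_closure_iff_nhds.1 hqK _ hq
      obtain ⟨q', hq'1, hq'2⟩ := h5
      exact ⟨q', hq'2, hq'1⟩
    have h6 : q' ∈ M ∩ U := ⟨hD.subset hq'D, hq'.2.1⟩
    rw [hMU] at h6
    obtain ⟨x', hx', hx'q, hx'r⟩ := hq'.1 h6.2
    have hx'δ : ‖x'‖ < δ₀ := hx'.trans_le (min_le_right _ _)
    have hne : x'.2 ≠ 0 := by
      intro h0
      have h7 : q' ∈ {q ∈ M ∩ U₂ | r q = 0} :=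
        ⟨⟨hD.subset hq'D, hq'.2.2⟩, by rw [← hx'r]; exact h0⟩
      rw [← hbdU] at h7
      exact h7.1.2 hq'D
    rcases lt_or_gt_of_ne hne with h7 | h7
    · left
      exact ⟨h4.le, hleft ⟨x', hx'δ, h7, by rw [hx'q]; exact hq'D⟩⟩
    · right
      exact ⟨h4.ge, hright ⟨x', hx'δ, h7, by rw [hx'q]; exact hq'D⟩⟩
  · right
    refine ⟨h4.le, hright ⟨x, hxδ, h4, hoff x hxδ h4.ne' (by rw [hxq]; exact hqK)⟩⟩

/-- **Main theorem.** -/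
theorem main {M D : Set E} (hM : IsSubmanifold M) (hgen : IsGeneric M) (hD : IsDomainIn M D)
    (hbd : HasSmoothBoundary M D) : IsHolderHalf (closure D) := by
  have hne : (closure D).Nonempty := hD.connected.nonempty.closure
  rcases subsingleton_or_nontrivial E with hE | hE
  · have hG : DiscProp (closure D) 1 1 1 := by
      intro h _ _ z _
      obtain ⟨q, hq⟩ := hne
      have hall : ∀ w : E, w ∈ closure D := fun w => by rw [Subsingleton.elim w q]; exact hq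
      refine ⟨fun _ => z, differentiable_const z, rfl, fun ζ _ => ?_, fun t _ => ?_⟩
      · rw [infDist_zero_of_mem (hall z)]; exact zero_le_one
      · rw [infDist_zero_of_mem (hall z)]; positivity
    exact isHolderHalf hD.compact hne (le_refl _) one_pos one_pos hG
  · obtain ⟨C, h₀, τ₀, hC, hh, hτ, hG⟩ := discProp_of_goodOn hD.compact hne (fun p hp => by
      by_cases hpD : p ∈ D
      · exact goodOn_interior hM hgen hD hpD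
      · exact goodOn_boundary hM hgen hD hbd ⟨hp, hpD⟩)
    exact isHolderHalf hD.compact hne hC hh hτ hG

end Pool.Agent.Helper32.Siciak
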